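import Pool.Agent.R505.Depth.Rel

set_option autoImplicit false

/-! The subgroup `L = ⟨x₀, (x₀, 1), (1, x₀)⟩` (it is normal of finite index). -/

namespace Pool.Agent.R505.Depth

open Pool.Agent.Results.MP_03d093_al.SphereBall Pool.Agent.H776R2.Grig

/-- the subgroup generated by `x₀`, `(x₀, 1)`, `(1, x₀)` -/
def L : Subgroup P := Subgroup.closure {x0, node x0 1, node 1 x0}

theorem x0_mem : x0 ∈ L := Subgroup.subset_closure (by simp)
theorem x0l_mem : node x0 1 ∈ L := Subgroup.subset_closure (by simp)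
theorem x0r_mem : node 1 x0 ∈ L := Subgroup.subset_closure (by simp)

theorem conj_mem {x y : P} (hx : x ∈ L) (hy : y ∈ L) : x * y * x⁻¹ ∈ L := L.mul_mem (L.mul_mem hx hy) (L.inv_mem hx)

theorem conj_mem' {x y : P} (hx : x ∈ L) (hy : y ∈ L) : x⁻¹ * y * x ∈ L := L.mul_mem (L.mul_mem (L.inv_mem hx) hy) hx

theorem zz_mem (i j : Bool) : zz i j ∈ L := by
  cases i <;> cases j
  · exact conj_mem x0_mem x0l_mem
  · exact x0l_mem
  · exact conj_mem' x0_mem (conj_mem' x0_mem x0r_mem)
  · exact conj_mem' x0_mem x0r_mem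

theorem cm_mem {x y : P} (hx : x ∈ L) (hy : y ∈ L) : cm x y ∈ L := L.mul_mem (conj_mem hx hy) (L.inv_mem hy)

theorem pl2_mem (i j : Bool) : pl [i, j] x0 ∈ L := by
  have h := cm_mem x0_mem (zz_mem i j)
  rcases cm_zz i j with e | e
  · rwa [← e]
  · rw [e, ← pl_inv] at h
    exact L.inv_mem_iff.1 h

theorem node_left_mem {k : P} (hk : k ∈ L) : node k 1 ∈ L := by
  induction hk using Subgroup.closure_induction with
  | mem x hx =>
    simp only [Set.mem_insert_iff, Set.mem_singleton_iff] at hx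
    rcases hx with h | h | h <;> subst h
    · exact x0l_mem
    · exact pl2_mem false false
    · exact pl2_mem false true
  | one => simpa using L.one_mem
  | mul x y _ _ hx hy =>
    have := L.mul_mem hx hy
    rwa [node_mul, one_mul] at this
  | inv x _ hx =>
    have := L.inv_mem hx
    rwa [node_inv, inv_one] at this

theorem node_right_mem {k : P} (hk : k ∈ L) : node 1 k ∈ L := by
  induction hk using Subgroup.closure_induction with
  | mem x hx =>
    simp only [Set.mem_insert_iff, Set.mem_singleton_iff] at hx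
    rcases hx with h | h | h <;> subst h
    · exact x0r_mem
    · exact pl2_mem true false
    · exact pl2_mem true true
  | one => simpa using L.one_mem
  | mul x y _ _ hx hy =>
    have := L.mul_mem hx hy
    rwa [node_mul, one_mul] at this
  | inv x _ hx =>
    have := L.inv_mem hx
    rwa [node_inv, inv_one] at this

theorem node_mem {k k' : P} (hk : k ∈ L) (hk' : k' ∈ L) : node k k' ∈ L := by
  have := L.mul_mem (node_left_mem hk) (node_right_mem hk')
  rwa [node_mul, one_mul, mul_one] at this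

theorem d_x0_mem : d * x0 * d ∈ L := by
  rw [rel3]
  exact L.mul_mem (node_right_mem (L.inv_mem x0_mem)) x0_mem

theorem c_x0_mem : c * x0 * c ∈ L := by
  rw [rel4]
  exact L.mul_mem (node_right_mem d_x0_mem) (L.inv_mem x0_mem)

theorem a_conj {k : P} (hk : k ∈ L) : a * k * a ∈ L := by
  induction hk using Subgroup.closure_induction with
  | mem x hx =>
    simp only [Set.mem_insert_iff, Set.mem_singleton_iff] at hx
    rcases hx with h | h | h <;> subst h
    · rw [a_x0]; exact L.inv_mem x0_mem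
    · rw [a_node]; exact x0r_mem
    · rw [a_node]; exact x0l_mem
  | one => rw [mul_one, aa]; exact L.one_mem
  | mul x y _ _ hx hy =>
    have := L.mul_mem hx hy
    have e : a * x * a * (a * y * a) = a * x * (a * a) * y * a := by group
    rw [e, aa, mul_one] at this
    simpa [mul_assoc] using this
  | inv x _ hx =>
    have := L.inv_mem hx
    have e : (a * x * a)⁻¹ = a⁻¹ * x⁻¹ * a⁻¹ := by group
    rw [e, inv_eq_of_mul_eq_one_left aa] at this
    exact this

theorem b_conj {k : P} (hk : k ∈ L) : b * k * b ∈ L := by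
  induction hk using Subgroup.closure_induction with
  | mem x hx =>
    simp only [Set.mem_insert_iff, Set.mem_singleton_iff] at hx
    rcases hx with h | h | h <;> subst h
    · rw [b_x0]; exact L.inv_mem x0_mem
    · rw [cj_b, a_x0, mul_one, cc]; exact node_left_mem (L.inv_mem x0_mem)
    · rw [cj_b, mul_one, aa]; exact node_right_mem c_x0_mem
  | one => rw [mul_one, bb]; exact L.one_mem
  | mul x y _ _ hx hy =>
    have := L.mul_mem hx hy
    have e : b * x * b * (b * y * b) = b * x * (b * b) * y * b := by group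
    rw [e, bb, mul_one] at this
    simpa [mul_assoc] using this
  | inv x _ hx =>
    have := L.inv_mem hx
    have e : (b * x * b)⁻¹ = b⁻¹ * x⁻¹ * b⁻¹ := by group
    rw [e, inv_eq_of_mul_eq_one_left bb] at this
    exact this

theorem c_conj {k : P} (hk : k ∈ L) : c * k * c ∈ L := by
  induction hk using Subgroup.closure_induction with
  | mem x hx =>
    simp only [Set.mem_insert_iff, Set.mem_singleton_iff] at hx
    rcases hx with h | h | h <;> subst h
    · exact c_x0_mem
    · rw [cj_c, a_x0, mul_one, dd]; exact node_left_mem (L.inv_mem x0_mem)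
    · rw [cj_c, mul_one, aa]; exact node_right_mem d_x0_mem
  | one => rw [mul_one, cc]; exact L.one_mem
  | mul x y _ _ hx hy =>
    have := L.mul_mem hx hy
    have e : c * x * c * (c * y * c) = c * x * (c * c) * y * c := by group
    rw [e, cc, mul_one] at this
    simpa [mul_assoc] using this
  | inv x _ hx =>
    have := L.inv_mem hx
    have e : (c * x * c)⁻¹ = c⁻¹ * x⁻¹ * c⁻¹ := by group
    rw [e, inv_eq_of_mul_eq_one_left cc] at this
    exact this

theorem d_conj {k : P} (hk : k ∈ L) : d * k * d ∈ L := by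
  induction hk using Subgroup.closure_induction with
  | mem x hx =>
    simp only [Set.mem_insert_iff, Set.mem_singleton_iff] at hx
    rcases hx with h | h | h <;> subst h
    · exact d_x0_mem
    · rw [cj_d, mul_one, bb]; exact x0l_mem
    · rw [cj_d, b_x0]; exact node_right_mem (L.inv_mem x0_mem)
  | one => rw [mul_one, dd]; exact L.one_mem
  | mul x y _ _ hx hy =>
    have := L.mul_mem hx hy
    have e : d * x * d * (d * y * d) = d * x * (d * d) * y * d := by group
    rw [e, dd, mul_one] at this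
    simpa [mul_assoc] using this
  | inv x _ hx =>
    have := L.inv_mem hx
    have e : (d * x * d)⁻¹ = d⁻¹ * x⁻¹ * d⁻¹ := by group
    rw [e, inv_eq_of_mul_eq_one_left dd] at this
    exact this

theorem gen_conj (s : Lt) {k : P} (hk : k ∈ L) : gen s * k * gen s ∈ L := by
  cases s
  · exact a_conj hk
  · exact b_conj hk
  · exact c_conj hk
  · exact d_conj hk

theorem ev_conj (w : List Lt) {k : P} (hk : k ∈ L) : ev w * k * (ev w)⁻¹ ∈ L := by
  induction w with
  | nil => simpa using hk
  | cons s w ih =>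
    have := gen_conj s ih
    rw [ev_cons, mul_inv_rev, gen_inv]
    simpa [mul_assoc] using this

theorem ev_conj' (w : List Lt) {k : P} (hk : k ∈ L) : (ev w)⁻¹ * k * ev w ∈ L := by
  have := ev_conj w.reverse hk
  rwa [ev_reverse, inv_inv] at this

/-- for `t ∈ ⟨a, d⟩` the commutator of `t` and `b` lies in `L` -/
theorem DD_comm {t : P} (ht : t ∈ DD) : t⁻¹ * b * t * b ∈ L := by
  have ha : a⁻¹ * b * a * b ∈ L := by
    rw [inv_eq_of_mul_eq_one_left aa]; exact x0_mem
  have hd : d⁻¹ * b * d * b ∈ L := by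
    have : d⁻¹ * b * d * b = 1 := by
      rw [inv_eq_of_mul_eq_one_left dd, mul_assoc d b d, F_bd, F_dc, bb]
    rw [this]; exact L.one_mem
  have hmul : ∀ (s : Lt) (t : P), gen s ∈ DD → (gen s)⁻¹ * b * gen s * b ∈ L → t⁻¹ * b * t * b ∈ L →
      (∃ u : List Lt, ev u = t) → (gen s * t)⁻¹ * b * (gen s * t) * b ∈ L := by
    intro s t _ h1 h2 ⟨u, hu⟩
    have h3 := ev_conj' u h1
    rw [hu] at h3
    have h4 := L.mul_mem h3 h2
    have e : t⁻¹ * ((gen s)⁻¹ * b * gen s * b) * t * (t⁻¹ * b * t * b) =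
        t⁻¹ * (gen s)⁻¹ * b * gen s * (b * b) * t * b := by group
    rw [e, bb, mul_one] at h4
    rw [mul_inv_rev]
    simpa [mul_assoc] using h4
  have h1 : (1 : P)⁻¹ * b * 1 * b ∈ L := by
    have : (1 : P)⁻¹ * b * 1 * b = 1 := by rw [inv_one, one_mul, mul_one, bb]
    rw [this]; exact L.one_mem
  have hA : gen Lt.A ∈ DD := by simp [gen, DD]
  have hD : gen Lt.D ∈ DD := by simp [gen, DD]
  have tA : ∀ t : P, t⁻¹ * b * t * b ∈ L → (∃ u : List Lt, ev u = t) → (a * t)⁻¹ * b * (a * t) * b ∈ L :=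
    fun t h1 h2 => hmul .A t hA ha h1 h2
  have tD : ∀ t : P, t⁻¹ * b * t * b ∈ L → (∃ u : List Lt, ev u = t) → (d * t)⁻¹ * b * (d * t) * b ∈ L :=
    fun t h1 h2 => hmul .D t hD hd h1 h2
  simp only [DD, Set.mem_insert_iff, Set.mem_singleton_iff] at ht
  rcases ht with h | h | h | h | h | h | h | h <;> subst h
  · exact h1
  · exact ha
  · exact hd
  · exact tA d hd ⟨[.D], by simp [gen]⟩
  · exact tD a ha ⟨[.A], by simp [gen]⟩
  · rw [mul_assoc]
    exact tA _ (tD a ha ⟨[.A], by simp [gen]⟩) ⟨[.D, .A], by simp [gen]⟩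
  · rw [mul_assoc]
    exact tD _ (tA d hd ⟨[.D], by simp [gen]⟩) ⟨[.A, .D], by simp [gen]⟩
  · rw [mul_assoc, mul_assoc]
    exact tA _ (tD _ (tA d hd ⟨[.D], by simp [gen]⟩) ⟨[.A, .D], by simp [gen]⟩) ⟨[.D, .A, .D], by simp [gen]⟩

/-- `b` or `1` -/
def pb (e : Bool) : P := if e then b else 1

/-- `L` has finite index: coset representatives -/
theorem coset (w : List Lt) : ∃ t ∈ DD, ∃ (e : Bool), ∃ k ∈ L, ev w = t * pb e * k := by
  induction w with
  | nil => exact ⟨1, by simp [DD], false, 1, L.one_mem, by simp [pb]⟩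
  | cons s w ih =>
    obtain ⟨t, ht, e, k, hk, hw⟩ := ih
    have hb : ∀ t ∈ DD, ∃ e', ∃ k' ∈ L, b * (t * pb e * k) = t * pb e' * k' := by
      intro t ht
      have h1 := DD_comm ht
      refine ⟨!e, (pb (!e))⁻¹ * (t⁻¹ * b * t * b) * pb (!e) * k, L.mul_mem ?_ hk, ?_⟩
      · cases e
        · simp only [pb, Bool.not_false, if_true]
          rw [inv_eq_of_mul_eq_one_left bb]
          exact b_conj h1
        · simpa [pb] using h1
      · have e2 : b * pb e = pb (!e) := by
          cases e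
          · simp [pb]
          · simp [pb, bb]
        have e3 : t * pb (!e) * ((pb (!e))⁻¹ * (t⁻¹ * b * t * b) * pb (!e) * k) =
            b * t * (b * pb (!e)) * k := by group
        have e4 : b * pb (!e) = pb e := by
          rw [← e2, ← mul_assoc, bb, one_mul]
        rw [e3, e4]
        group
    cases s
    · refine ⟨a * t, DD_a ht, e, k, hk, ?_⟩
      rw [ev_cons, hw]
      simp [gen, mul_assoc]
    · obtain ⟨e', k', hk', h⟩ := hb t ht
      refine ⟨t, ht, e', k', hk', ?_⟩
      rw [ev_cons, hw]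
      exact h
    · obtain ⟨e', k', hk', h⟩ := hb (d * t) (DD_d ht)
      refine ⟨d * t, DD_d ht, e', k', hk', ?_⟩
      rw [ev_cons, hw, ← h]
      show c * _ = _
      rw [← F_bd]
      simp [mul_assoc]
    · refine ⟨d * t, DD_d ht, e, k, hk, ?_⟩
      rw [ev_cons, hw]
      simp [gen, mul_assoc]

theorem ad_sq : (a * d) * (a * d) = node b b := by
  have : (a * d) * (a * d) = (a * node 1 b * a) * node 1 b := by rw [← d_eq]; group
  rw [this, a_node, node_mul, one_mul, mul_one]

theorem ac_sq : (a * c) * (a * c) = node (d * a) (a * d) := by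
  have : (a * c) * (a * c) = (a * node a d * a) * node a d := by rw [← c_eq]; group
  rw [this, a_node, node_mul]

theorem pow_node (f g : P) (n : ℕ) : node f g ^ n = node (f ^ n) (g ^ n) := by
  induction n with
  | zero => simp
  | succ n ih => rw [pow_succ, ih, node_mul, ← pow_succ, ← pow_succ]

theorem ad_four : (a * d) ^ 4 = 1 := by
  have : (a * d) ^ 4 = ((a * d) * (a * d)) ^ 2 := by rw [← pow_two, ← pow_mul]
  rw [this, ad_sq, pow_node, pow_two, bb, node_one]

theorem da_four : (d * a) ^ 4 = 1 := by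
  have h := ad_four
  have : (d * a)⁻¹ = a * d := rfl
  rw [← inv_inj, ← inv_pow, this, h, inv_one]

theorem ac_eight : (a * c) ^ 8 = 1 := by
  have : (a * c) ^ 8 = ((a * c) * (a * c)) ^ 4 := by rw [← pow_two, ← pow_mul]
  rw [this, ac_sq, pow_node, da_four, ad_four, node_one]

theorem ca_eight : (c * a) ^ 8 = 1 := by
  have h := ac_eight
  have : (c * a)⁻¹ = a * c := rfl
  rw [← inv_inj, ← inv_pow, this, h, inv_one]

theorem x0_eight : x0 ^ 8 = 1 := by
  rw [x0_node, pow_node, ca_eight, ac_eight, node_one]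

/-- `L = (L × L)⟨x₀⟩` -/
theorem L_dec {k : P} (hk : k ∈ L) : ∃ k0 ∈ L, ∃ k1 ∈ L, ∃ n : ℕ, n < 8 ∧ k = node k0 k1 * x0 ^ n := by
  have hconj : ∀ n : ℕ, ∀ k0 ∈ L, ∀ k1 ∈ L, ∃ l0 ∈ L, ∃ l1 ∈ L, x0 ^ n * node k0 k1 = node l0 l1 * x0 ^ n := by
    intro n
    induction n with
    | zero => intro k0 h0 k1 h1; exact ⟨k0, h0, k1, h1, by simp⟩
    | succ n ih =>
      intro k0 h0 k1 h1
      obtain ⟨l0, hl0, l1, hl1, h⟩ := ih k0 h0 k1 h1
      refine ⟨(c * a) * l0 * (a * c), ?_, (a * c) * l1 * (c * a), ?_, ?_⟩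
      · have h1 := ev_conj [.C, .A] hl0
        have e : ev [.C, .A] = c * a := by simp [gen]
        rw [e] at h1
        exact h1
      · have h1 := ev_conj [.A, .C] hl1
        have e : ev [.A, .C] = a * c := by simp [gen]
        rw [e] at h1
        exact h1
      · rw [← cj_x0, pow_succ', mul_assoc, h]
        group
  have main : ∃ k0 ∈ L, ∃ k1 ∈ L, ∃ n : ℕ, k = node k0 k1 * x0 ^ n := by
    induction hk using Subgroup.closure_induction with
    | mem x hx =>
      simp only [Set.mem_insert_iff, Set.mem_singleton_iff] at hx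
      rcases hx with h | h | h <;> subst h
      · exact ⟨1, L.one_mem, 1, L.one_mem, 1, by simp⟩
      · exact ⟨x0, x0_mem, 1, L.one_mem, 0, by simp⟩
      · exact ⟨1, L.one_mem, x0, x0_mem, 0, by simp⟩
    | one => exact ⟨1, L.one_mem, 1, L.one_mem, 0, by simp⟩
    | mul x y _ _ hx hy =>
      obtain ⟨k0, h0, k1, h1, n, rfl⟩ := hx
      obtain ⟨m0, hm0, m1, hm1, m, rfl⟩ := hy
      obtain ⟨l0, hl0, l1, hl1, h⟩ := hconj n m0 hm0 m1 hm1
      refine ⟨k0 * l0, L.mul_mem h0 hl0, k1 * l1, L.mul_mem h1 hl1, n + m, ?_⟩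
      calc node k0 k1 * x0 ^ n * (node m0 m1 * x0 ^ m) = node k0 k1 * (x0 ^ n * node m0 m1) * x0 ^ m := by
            group
        _ = node k0 k1 * (node l0 l1 * x0 ^ n) * x0 ^ m := by rw [h]
        _ = (node k0 k1 * node l0 l1) * (x0 ^ n * x0 ^ m) := by group
        _ = _ := by rw [node_mul, pow_add]
    | inv x _ hx =>
      obtain ⟨k0, h0, k1, h1, n, rfl⟩ := hx
      obtain ⟨l0, hl0, l1, hl1, h⟩ := hconj (7 * n) k0⁻¹ (L.inv_mem h0) k1⁻¹ (L.inv_mem h1)
      refine ⟨l0, hl0, l1, hl1, 7 * n, ?_⟩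
      have e : (x0 ^ n)⁻¹ = x0 ^ (7 * n) := by
        rw [inv_eq_iff_mul_eq_one, ← pow_add, show n + 7 * n = 8 * n by ring, pow_mul, x0_eight, one_pow]
      rw [mul_inv_rev, node_inv, e, h]
  obtain ⟨k0, h0, k1, h1, n, h⟩ := main
  refine ⟨k0, h0, k1, h1, n % 8, Nat.mod_lt _ (by norm_num), ?_⟩
  rw [h]
  congr 1
  conv_lhs => rw [← Nat.div_add_mod n 8, pow_add, pow_mul, x0_eight, one_pow, one_mul]

end Pool.Agent.R505.Depth
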