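import Pool.Agent.R505.Depth.Real
import Pool.Agent.R505.Depth.Lgrp

set_option autoImplicit false

/-! Decomposition of elements whose sections at level `n` are short. -/

namespace Pool.Agent.R505.Depth

open Pool.Agent.Results.MP_03d093_al.SphereBall Pool.Agent.H776R2.Grig

theorem mu_bounds : 1.2325 < mu ∧ mu < 1.234 := ⟨F_mu_gt, F_mu_lt⟩

theorem K_mul {g h : P} (hg : g ∈ G) (hh : h ∈ G) : K (g * h) ≤ K g + K h := by
  apply le_of_forall_pos_le_add
  intro η hη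
  obtain ⟨w, hw, hwK⟩ := Q_exists hg (half_pos hη)
  obtain ⟨u, hu, huK⟩ := Q_exists hh (half_pos hη)
  have := Q_K_le (w ++ u)
  rw [ev_append, hw, hu, F_Kw_append] at this
  linarith

theorem K_ev_le (w : List Lt) : K (ev w) ≤ 1.54 * w.length := by
  have h1 := Q_K_le w
  have h2 := Q_Kw_le w
  have h3 : mu ^ 2 ≤ 1.54 := by have := mu_bounds; nlinarith
  have h4 : (0 : ℝ) ≤ w.length := Nat.cast_nonneg _
  nlinarith

/-- all sections at level `n` have weighted length at most `R` -/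
def Sn : ℕ → ℝ → P → Prop
  | 0, R, g => g ∈ G ∧ K g ≤ R
  | n + 1, R, g => ∃ (e : Bool) (g0 g1 : P), Sn n R g0 ∧ Sn n R g1 ∧ g = node g0 g1 * pa e

theorem Sn.mono {n : ℕ} : ∀ {R R' : ℝ} {g : P}, R ≤ R' → Sn n R g → Sn n R' g := by
  induction n with
  | zero => intro R R' g h hg; exact ⟨hg.1, hg.2.trans h⟩
  | succ n ih =>
    rintro R R' g h ⟨e, g0, g1, h0, h1, hg⟩
    exact ⟨e, g0, g1, ih h h0, ih h h1, hg⟩

theorem pa_node (e : Bool) (f g : P) : pa e * node f g * pa e = if e then node g f else node f g := by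
  cases e
  · simp [pa]
  · simp only [pa, if_true]; exact a_node f g

theorem Sn.mul {n : ℕ} : ∀ {R R' : ℝ} {g h : P}, Sn n R g → Sn n R' h → Sn n (R + R') (g * h) := by
  induction n with
  | zero =>
    intro R R' g h hg hh
    exact ⟨G.mul_mem hg.1 hh.1, (K_mul hg.1 hh.1).trans (add_le_add hg.2 hh.2)⟩
  | succ n ih =>
    rintro R R' g h ⟨e, g0, g1, h0, h1, rfl⟩ ⟨e', k0, k1, l0, l1, rfl⟩
    have hp : pa e * pa e = 1 := Q_pa_sq e
    have e1 : node g0 g1 * pa e * (node k0 k1 * pa e') =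
        node g0 g1 * (pa e * node k0 k1 * pa e) * (pa e * pa e') := by
      calc node g0 g1 * pa e * (node k0 k1 * pa e') =
          node g0 g1 * (pa e * node k0 k1 * 1) * pa e' := by group
        _ = node g0 g1 * (pa e * node k0 k1 * (pa e * pa e)) * pa e' := by rw [hp]
        _ = _ := by group
    rw [e1, pa_node, S_pa_mul]
    cases e
    · exact ⟨xor false e', g0 * k0, g1 * k1, ih h0 l0, ih h1 l1, by simp [node_mul]⟩
    · exact ⟨xor true e', g0 * k1, g1 * k0, ih h0 l1, ih h1 l0, by simp [node_mul]⟩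

theorem pa_nil (e : Bool) : pa e [] = [] := by cases e <;> rfl

theorem G_nil {g : P} (hg : g ∈ G) : g [] = [] := by
  obtain ⟨w, rfl⟩ := exists_word hg
  exact ev_nil_apply w

/-- `g = (g₀, g₁) a^e` -/
theorem G_dec {g : P} (hg : g ∈ G) : ∃ e : Bool, ∃ g0 ∈ G, ∃ g1 ∈ G,
    g = node g0 g1 * pa e ∧ mu * (K g0 + K g1) ≤ K g + 2 := by
  obtain ⟨e, g0, h0, g1, h1, hs, hK⟩ := K_section g hg
  refine ⟨e, g0, h0, g1, h1, ?_, hK⟩
  have h2 : g * pa e = node g0 g1 := by
    refine eq_node hs ?_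
    rw [Equiv.Perm.mul_apply, pa_nil, G_nil hg]
  rw [← h2, mul_assoc, Q_pa_sq, mul_one]

theorem Sn.of_G {n : ℕ} : ∀ {R : ℝ} {g : P}, 9 ≤ R → g ∈ G → K g ≤ R → Sn n R g := by
  induction n with
  | zero => intro R g _ hg hK; exact ⟨hg, hK⟩
  | succ n ih =>
    intro R g hR hg hK
    obtain ⟨e, g0, h0, g1, h1, h2, h3⟩ := G_dec hg
    have hmu := mu_bounds
    have k0 := K_nonneg g0
    have k1 := K_nonneg g1
    refine ⟨e, g0, g1, ih hR h0 ?_, ih hR h1 ?_, h2⟩
    · nlinarith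
    · nlinarith

theorem node_pa {k0 k1 g0 g1 : P} {e : Bool} (h : node k0 k1 = node g0 g1 * pa e) :
    k0 = g0 ∧ k1 = g1 := by
  cases e
  · simp only [pa, Bool.false_eq_true, if_false, mul_one] at h
    exact node_inj h
  · exfalso
    have := congrArg (fun f : P => f [false]) h
    simp [pa, a_apply, aFun] at this

theorem Sn.node {n : ℕ} {R : ℝ} {k0 k1 : P} (h : Sn (n + 1) R (node k0 k1)) : Sn n R k0 ∧ Sn n R k1 := by
  obtain ⟨e, g0, g1, h0, h1, hg⟩ := h
  obtain ⟨rfl, rfl⟩ := node_pa hg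
  exact ⟨h0, h1⟩

theorem L_le_G : L ≤ G := by
  unfold L
  rw [Subgroup.closure_le]
  intro x hx
  simp only [Set.mem_insert_iff, Set.mem_singleton_iff] at hx
  have hG : ∀ z : P, GG z → z ∈ G := by rintro z ⟨w, _, rfl⟩; exact ev_mem w
  rcases hx with h | h | h <;> subst h
  · exact hG _ GG.x0
  · exact hG _ (GG.x0.node GG.one)
  · exact hG _ (GG.one.node GG.x0)

/-- the constant bounding the weights of `x₀^{-n}`, `n < 8` -/
def R1 : ℝ := 44

theorem K_x0_inv (n : ℕ) (hn : n < 8) : (x0 ^ n)⁻¹ ∈ G ∧ K (x0 ^ n)⁻¹ ≤ R1 := by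
  have h : ∀ n : ℕ, ∃ w : List Lt, w.length = 4 * n ∧ ev w = x0 ^ n := by
    intro n
    induction n with
    | zero => exact ⟨[], rfl, by simp⟩
    | succ n ih =>
      obtain ⟨w, h1, h2⟩ := ih
      refine ⟨w ++ [Lt.A, Lt.B, Lt.A, Lt.B], by simp [h1]; ring, ?_⟩
      rw [ev_append, h2, x0_ev, pow_succ]
  obtain ⟨w, h1, h2⟩ := h n
  have h3 := K_ev_le w.reverse
  rw [ev_reverse, h2, List.length_reverse, h1] at h3
  refine ⟨?_, h3.trans ?_⟩
  · rw [← h2, ← ev_reverse]; exact ev_mem _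
  · unfold R1
    have : (n : ℝ) ≤ 7 := by exact_mod_cast (by omega : n ≤ 7)
    push_cast
    linarith

/-- one step of the decomposition -/
theorem step_Sn {n : ℕ} {R : ℝ} {k : P} (hk : k ∈ L) (hS : Sn (n + 1) R k) :
    ∃ k0 k1 : P, ∃ j : ℕ, (k0 ∈ L ∧ Sn n (R + R1) k0) ∧ (k1 ∈ L ∧ Sn n (R + R1) k1) ∧ j < 8 ∧
      k = node k0 k1 * x0 ^ j := by
  obtain ⟨k0, h0, k1, h1, j, hj, hkj⟩ := L_dec hk
  obtain ⟨m1, m2⟩ := K_x0_inv j hj
  have h2 : Sn (n + 1) (R + R1) (k * (x0 ^ j)⁻¹) :=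
    hS.mul (Sn.of_G (by unfold R1; norm_num) m1 m2)
  have h3 : k * (x0 ^ j)⁻¹ = node k0 k1 := by rw [hkj]; group
  rw [h3] at h2
  exact ⟨k0, k1, j, ⟨h0, h2.node.1⟩, ⟨h1, h2.node.2⟩, hj, hkj⟩

def R2 : ℝ := 200

theorem step_K {R : ℝ} {k : P} (hk : k ∈ L) (hR : 0 ≤ R) (hK : K k ≤ R + R2) :
    ∃ k0 k1 : P, ∃ j : ℕ, (k0 ∈ L ∧ K k0 ≤ R / mu + R2) ∧ (k1 ∈ L ∧ K k1 ≤ R / mu + R2) ∧ j < 8 ∧
      k = node k0 k1 * x0 ^ j := by
  obtain ⟨k0, h0, k1, h1, j, hj, hkj⟩ := L_dec hk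
  obtain ⟨m1, m2⟩ := K_x0_inv j hj
  have h3 : k * (x0 ^ j)⁻¹ = node k0 k1 := by rw [hkj]; group
  have h4 : K (node k0 k1) ≤ R + R2 + R1 := by
    rw [← h3]
    exact (K_mul (L_le_G hk) m1).trans (add_le_add hK m2)
  have h5 : node k0 k1 ∈ G := L_le_G (node_mem h0 h1)
  obtain ⟨e, g0, hg0, g1, hg1, h6, h7⟩ := G_dec h5
  obtain ⟨rfl, rfl⟩ := node_pa h6
  have hmu := mu_bounds
  have hmu0 : 0 < mu := by linarith
  have p0 := K_nonneg k0
  have p1 := K_nonneg k1
  have key : ∀ x : ℝ, mu * x ≤ R + R2 + R1 + 2 → x ≤ R / mu + R2 := by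
    intro x hx
    have e1 : mu * (R / mu + R2) = R + mu * R2 := by field_simp
    have e2 : mu * x ≤ mu * (R / mu + R2) := by
      rw [e1]
      unfold R2 R1 at *
      nlinarith
    exact le_of_mul_le_mul_left e2 hmu0
  refine ⟨k0, k1, j, ⟨h0, key _ ?_⟩, ⟨h1, key _ ?_⟩, hj, hkj⟩
  · nlinarith
  · nlinarith

/-- choosing the next family of sections -/
theorem advance {p q : P → Prop} (N : ℕ) (κ : List Bool → P) (hκ : ∀ v, p (κ v))
    (hstep : ∀ k, p k → ∃ k0 k1 : P, ∃ j : ℕ, q k0 ∧ q k1 ∧ j < 8 ∧ k = node k0 k1 * x0 ^ j) :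
    ∃ (κ' : List Bool → P) (j : List Bool → ℕ), (∀ v, q (κ' v)) ∧ (∀ v, j v < 8) ∧
      EE N κ = EE (N + 1) κ' * EE N fun v => x0 ^ (j v) := by
  choose k0 k1 j h0 h1 hj h using fun v => hstep (κ v) (hκ v)
  refine ⟨fun u => if u.getLastD false then k1 u.dropLast else k0 u.dropLast, j, ?_, hj, ?_⟩
  · intro v
    dsimp only
    split_ifs
    · exact h1 _
    · exact h0 _
  · rw [EE_snoc, EE_mul]
    congr 1
    funext v
    rw [h v]
    simp

/-- costs of `EE N κ` for `κ` with values in a finite set -/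
theorem fin_cost (B : List P) (hB : ∀ b ∈ B, ∃ C : ℝ, 0 ≤ C ∧ ∀ (N : ℕ) (F : List Bool → Bool),
    Cst (EE N fun v => if F v then b else 1) (C * lam ^ N)) :
    ∃ C : ℝ, 0 ≤ C ∧ ∀ (N : ℕ) (κ : List Bool → P), (∀ v, κ v ∈ B ∨ κ v = 1) →
      Cst (EE N κ) (C * lam ^ N) := by
  classical
  induction B with
  | nil =>
    refine ⟨0, le_rfl, fun N κ hκ => ?_⟩
    have : EE N κ = 1 := by
      rw [← EE_one N]
      congr 1
      funext v
      simpa using hκ v
    rw [this, zero_mul]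
    exact Cst.one
  | cons b B ih =>
    obtain ⟨C, hC, h⟩ := ih (fun b' hb' => hB b' (List.mem_cons_of_mem _ hb'))
    obtain ⟨C', hC', h'⟩ := hB b (by simp)
    refine ⟨C' + C, by positivity, fun N κ hκ => ?_⟩
    have h1 := h' N (fun v => decide (κ v = b))
    have h2 := h N (fun v => if κ v = b then 1 else κ v) (by
      intro v
      by_cases hv : κ v = b
      · simp [hv]
      · rcases hκ v with h3 | h3
        · rcases List.mem_cons.1 h3 with h4 | h4
          · exact absurd h4 hv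
          · simp only [if_neg hv]; exact Or.inl h4
        · simp only [if_neg hv]; exact Or.inr h3)
    have h3 := h1.mul h2
    rw [EE_mul] at h3
    have e : EE N κ = EE N fun v => (if decide (κ v = b) = true then b else 1) *
        (if κ v = b then 1 else κ v) := by
      congr 1
      funext v
      by_cases hv : κ v = b
      · simp [hv]
      · simp [hv]
    rw [e]
    exact h3.mono (by ring_nf; exact le_rfl)

theorem L_cost {k : P} (hk : k ∈ L) : ∃ C : ℝ, 0 ≤ C ∧ ∀ (N : ℕ) (F : List Bool → Bool),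
    Cst (EE N fun v => if F v then k else 1) (C * lam ^ N) := by
  obtain ⟨A, hA, hreal⟩ := realize_exact
  induction hk using Subgroup.closure_induction with
  | mem x hx =>
    simp only [Set.mem_insert_iff, Set.mem_singleton_iff] at hx
    rcases hx with h | h | h
    · subst h
      exact ⟨A, hA.le, hreal⟩
    · subst h
      refine ⟨A * lam, mul_nonneg hA.le lam_pos.le, fun N F => ?_⟩
      have h1 := hreal (N + 1) (fun u => F u.dropLast && !(u.getLastD false))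
      have e : EE (N + 1) (fun v => if (F v.dropLast && !(v.getLastD false)) = true then x0 else 1) =
          EE N fun v => if F v then node x0 1 else 1 := by
        rw [EE_snoc]
        congr 1
        funext v
        cases hF : F v <;> simp [hF]
      rw [e] at h1
      exact h1.mono (by rw [pow_succ]; ring_nf; exact le_rfl)
    · subst h
      refine ⟨A * lam, mul_nonneg hA.le lam_pos.le, fun N F => ?_⟩
      have h1 := hreal (N + 1) (fun u => F u.dropLast && (u.getLastD false))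
      have e : EE (N + 1) (fun v => if (F v.dropLast && (v.getLastD false)) = true then x0 else 1) =
          EE N fun v => if F v then node 1 x0 else 1 := by
        rw [EE_snoc]
        congr 1
        funext v
        cases hF : F v <;> simp [hF]
      rw [e] at h1
      exact h1.mono (by rw [pow_succ]; ring_nf; exact le_rfl)
  | one =>
    refine ⟨0, le_rfl, fun N F => ?_⟩
    simp only [ite_self, EE_one, zero_mul]
    exact Cst.one
  | mul x y _ _ hx hy =>
    obtain ⟨C, hC, h⟩ := hx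
    obtain ⟨C', hC', h'⟩ := hy
    refine ⟨C + C', by positivity, fun N F => ?_⟩
    have h1 := (h N F).mul (h' N F)
    rw [EE_mul] at h1
    have e : (EE N fun v => if F v then x * y else 1) =
        EE N fun v => (if F v = true then x else 1) * (if F v = true then y else 1) := by
      congr 1
      funext v
      cases F v <;> simp
    rw [e]
    exact h1.mono (by ring_nf; exact le_rfl)
  | inv x _ hx =>
    obtain ⟨C, hC, h⟩ := hx
    refine ⟨C, hC, fun N F => ?_⟩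
    have h1 := (h N F).inv
    rw [EE_inv] at h1
    have e : (EE N fun v => if F v then x⁻¹ else 1) = EE N fun v => (if F v = true then x else 1)⁻¹ := by
      congr 1
      funext v
      cases F v <;> simp
    rw [e]
    exact h1

theorem lam_two : (2 : ℝ) ≤ lam := by have := lam_gt; linarith

/-- costs of the correction terms -/
theorem corr_cost : ∃ C : ℝ, 0 ≤ C ∧ ∀ (N : ℕ) (j : List Bool → ℕ), (∀ v, j v < 8) →
    Cst (EE N fun v => x0 ^ (j v)) (C * lam ^ N) := by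
  obtain ⟨C, hC, h⟩ := fin_cost ((List.range 8).map fun j => x0 ^ j) (by
    intro b hb
    obtain ⟨j, _, rfl⟩ := List.mem_map.1 hb
    exact L_cost (L.pow_mem x0_mem j))
  refine ⟨C, hC, fun N j hj => h N _ fun v => Or.inl ?_⟩
  exact List.mem_map.2 ⟨j v, List.mem_range.2 (hj v), rfl⟩

/-- first phase -/
theorem phase1 {C1 : ℝ} (hC1 : 0 ≤ C1) (hc : ∀ (N : ℕ) (j : List Bool → ℕ), (∀ v, j v < 8) →
    Cst (EE N fun v => x0 ^ (j v)) (C1 * lam ^ N)) (n : ℕ) : ∀ (N : ℕ) (R : ℝ) (κ : List Bool → P),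
    (∀ v, κ v ∈ L ∧ Sn n R (κ v)) → ∃ κ' : List Bool → P,
      (∀ v, κ' v ∈ L ∧ K (κ' v) ≤ R + n * R1) ∧ ∃ h : P, Cst h (C1 * (lam ^ (N + n) - lam ^ N)) ∧
      EE N κ = EE (N + n) κ' * h := by
  induction n with
  | zero =>
    intro N R κ hκ
    refine ⟨κ, fun v => ⟨(hκ v).1, by simpa using (hκ v).2.2⟩, 1, ?_, by simp⟩
    simpa using Cst.one
  | succ n ih =>
    intro N R κ hκ
    obtain ⟨κ1, j, h1, hj, he⟩ := advance (p := fun k => k ∈ L ∧ Sn (n + 1) R k)
      (q := fun k => k ∈ L ∧ Sn n (R + R1) k) N κ hκ (fun k hk => step_Sn hk.1 hk.2)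
    obtain ⟨κ', h2, h, h3, h4⟩ := ih (N + 1) (R + R1) κ1 h1
    refine ⟨κ', fun v => ⟨(h2 v).1, ?_⟩, h * EE N fun v => x0 ^ (j v), (h3.mul (hc N j hj)).mono ?_, ?_⟩
    · have := (h2 v).2
      push_cast
      linarith
    · have e1 : N + 1 + n = N + (n + 1) := by ring
      rw [e1]
      have h5 := pow_pos lam_pos N
      have h6 : lam ^ (N + 1) = lam ^ N * lam := pow_succ _ _
      have h7 := lam_two
      rw [h6]
      nlinarith [mul_nonneg hC1 h5.le, mul_nonneg (mul_nonneg hC1 h5.le) (sub_nonneg.2 h7)]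
    · rw [he, h4, show N + 1 + n = N + (n + 1) by ring, mul_assoc]

/-- second phase -/
theorem phase2 {C1 : ℝ} (hC1 : 0 ≤ C1) (hc : ∀ (N : ℕ) (j : List Bool → ℕ), (∀ v, j v < 8) →
    Cst (EE N fun v => x0 ^ (j v)) (C1 * lam ^ N)) (J : ℕ) : ∀ (N : ℕ) (R : ℝ) (κ : List Bool → P),
    0 ≤ R → (∀ v, κ v ∈ L ∧ K (κ v) ≤ R + R2) → ∃ κ' : List Bool → P,
      (∀ v, κ' v ∈ L ∧ K (κ' v) ≤ R / mu ^ J + R2) ∧ ∃ h : P, Cst h (C1 * (lam ^ (N + J) - lam ^ N)) ∧
      EE N κ = EE (N + J) κ' * h := by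
  induction J with
  | zero =>
    intro N R κ _ hκ
    refine ⟨κ, fun v => ⟨(hκ v).1, by simpa using (hκ v).2⟩, 1, ?_, by simp⟩
    simpa using Cst.one
  | succ n ih =>
    intro N R κ hR hκ
    have hmu0 : 0 < mu := by have := mu_bounds; linarith
    obtain ⟨κ1, j, h1, hj, he⟩ := advance (p := fun k => k ∈ L ∧ K k ≤ R + R2)
      (q := fun k => k ∈ L ∧ K k ≤ R / mu + R2) N κ hκ (fun k hk => step_K hk.1 hR hk.2)
    obtain ⟨κ', h2, h, h3, h4⟩ := ih (N + 1) (R / mu) κ1 (by positivity) h1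
    refine ⟨κ', fun v => ⟨(h2 v).1, ?_⟩, h * EE N fun v => x0 ^ (j v), (h3.mul (hc N j hj)).mono ?_, ?_⟩
    · have := (h2 v).2
      rwa [div_div, ← pow_succ'] at this
    · have e1 : N + 1 + n = N + (n + 1) := by ring
      rw [e1]
      have h5 := pow_pos lam_pos N
      have h6 : lam ^ (N + 1) = lam ^ N * lam := pow_succ _ _
      have h7 := lam_two
      rw [h6]
      nlinarith [mul_nonneg hC1 h5.le, mul_nonneg (mul_nonneg hC1 h5.le) (sub_nonneg.2 h7)]
    · rw [he, h4, show N + 1 + n = N + (n + 1) by ring, mul_assoc]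

theorem ball_list (R : ℝ) : ∃ B : List P, (∀ b ∈ B, b ∈ L) ∧ ∀ k ∈ L, K k ≤ R → k ∈ B := by
  have hfin : {k : P | k ∈ L ∧ K k ≤ R}.Finite := by
    have h1 : {g : G | len g ≤ ⌊2 * R + 2⌋₊}.Finite := ball_finite _
    refine (h1.image Subtype.val).subset ?_
    rintro k ⟨hk, hK⟩
    refine ⟨⟨k, L_le_G hk⟩, ?_, rfl⟩
    show len _ ≤ _
    apply Nat.le_floor
    exact (len_le_K ⟨k, L_le_G hk⟩).trans (by linarith)
  refine ⟨hfin.toFinset.toList, fun b hb => ?_, fun k hk hK => ?_⟩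
  · rw [Finset.mem_toList, Set.Finite.mem_toFinset] at hb
    exact hb.1
  · rw [Finset.mem_toList, Set.Finite.mem_toFinset]
    exact ⟨hk, hK⟩

/-- elements of `L` with short sections at level `n` -/
theorem L_bound : ∃ C : ℝ, 0 ≤ C ∧ ∀ (n J : ℕ) (R : ℝ) (k : P), k ∈ L → Sn n R k → 0 ≤ R →
    R + n * R1 ≤ mu ^ J → Cst k (C * lam ^ (n + J)) := by
  obtain ⟨C1, hC1, hc⟩ := corr_cost
  obtain ⟨B, hBL, hB⟩ := ball_list (1 + R2)
  obtain ⟨C2, hC2, h2⟩ := fin_cost B (fun b hb => L_cost (hBL b hb))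
  refine ⟨C2 + 2 * C1, by positivity, ?_⟩
  intro n J R k hk hS hR hJ
  have hmu0 : 0 < mu := by have := mu_bounds; linarith
  obtain ⟨κ1, ha, g1, hg1, e1⟩ := phase1 hC1 hc n 0 R (fun _ => k) (fun _ => ⟨hk, hS⟩)
  have hRn : 0 ≤ R + n * R1 := by unfold R1; positivity
  obtain ⟨κ2, hb, g2, hg2, e2⟩ := phase2 hC1 hc J (0 + n) (R + n * R1) κ1 hRn
    (fun v => ⟨(ha v).1, (ha v).2.trans (by unfold R2; linarith)⟩)
  have h3 := h2 (0 + n + J) κ2 (fun v => Or.inl (hB _ (hb v).1 ((hb v).2.trans (by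
    have : (R + n * R1) / mu ^ J ≤ 1 := (div_le_one (by positivity)).2 hJ
    linarith))))
  have h4 := (h3.mul hg2).mul hg1
  have e : EE (0 + n + J) κ2 * g2 * g1 = k := by
    rw [← e2, ← e1]
    rfl
  rw [e] at h4
  refine h4.mono ?_
  rw [zero_add]
  have p1 := pow_pos lam_pos n
  have p2 : lam ^ n ≤ lam ^ (n + J) := pow_le_pow_right₀ lam_one (by omega)
  simp only [pow_zero]
  nlinarith [mul_nonneg hC1 p1.le, mul_le_mul_of_nonneg_left p2 hC1]

end Pool.Agent.R505.Depth
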