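import Pool.Agent.H776R2.Diam.IterG
import Pool.Agent.H776R2.Grig.Base
import Pool.Agent.H776R2.Grig.KLen

set_option autoImplicit false

/-! Exact elements of the Grigorchuk group with prescribed sections. -/

namespace Pool.Agent.R505.Depth

open Pool.Agent.Results.MP_03d093_al.SphereBall Pool.Agent.H776R2.Grig

/-- the map fixing the first letter, with sections `f`, `g` -/
def nodeFun (f g : P) : List Bool → List Bool
  | [] => []
  | false :: w => false :: f w
  | true :: w => true :: g w

/-- the permutation fixing the first letter, with sections `f`, `g` -/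
def node (f g : P) : P where
  toFun := nodeFun f g
  invFun := nodeFun f⁻¹ g⁻¹
  left_inv w := by
    match w with
    | [] => rfl
    | false :: w => simp [nodeFun]
    | true :: w => simp [nodeFun]
  right_inv w := by
    match w with
    | [] => rfl
    | false :: w => simp [nodeFun]
    | true :: w => simp [nodeFun]

@[simp] theorem node_nil (f g : P) : node f g [] = [] := rfl
@[simp] theorem node_false (f g : P) (w : List Bool) : node f g (false :: w) = false :: f w := rfl
@[simp] theorem node_true (f g : P) (w : List Bool) : node f g (true :: w) = true :: g w := rfl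

theorem node_mul (f g f' g' : P) : node f g * node f' g' = node (f * f') (g * g') := by
  ext1 w
  match w with
  | [] => rfl
  | false :: w => simp
  | true :: w => simp

@[simp] theorem node_one : node 1 1 = 1 := by
  ext1 w
  match w with
  | [] => rfl
  | false :: w => rfl
  | true :: w => rfl

theorem node_inv (f g : P) : (node f g)⁻¹ = node f⁻¹ g⁻¹ := by
  rw [inv_eq_iff_mul_eq_one, node_mul]
  simp

theorem sec_node (f g : P) : Sec (node f g) f g := fun _ => ⟨rfl, rfl⟩

theorem eq_node {h f g : P} (hs : Sec h f g) (h0 : h [] = []) : h = node f g := by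
  ext1 w
  match w with
  | [] => exact h0
  | false :: w => exact (hs w).1
  | true :: w => exact (hs w).2

theorem node_inj {f g f' g' : P} (h : node f g = node f' g') : f = f' ∧ g = g' := by
  have h1 := sec_node f g
  rw [h] at h1
  have := h1.unique (sec_node f' g')
  exact this

theorem a_node (f g : P) : a * node f g * a = node g f := by
  refine eq_node (sec_node f g).conj ?_
  rfl

theorem b_eq : b = node a c := eq_node sec_b rfl
theorem c_eq : c = node a d := eq_node sec_c rfl
theorem d_eq : d = node 1 b := eq_node sec_d rfl

/-- the permutation fixing the words of length `N`, with section `κ v` at `v` -/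
def EE : ℕ → (List Bool → P) → P
  | 0, κ => κ []
  | N + 1, κ => node (EE N fun v => κ (false :: v)) (EE N fun v => κ (true :: v))

theorem EE_congr (N : ℕ) : ∀ {κ κ' : List Bool → P}, (∀ v : List Bool, v.length = N → κ v = κ' v) →
    EE N κ = EE N κ' := by
  induction N with
  | zero => intro κ κ' h; exact h [] rfl
  | succ N ih =>
    intro κ κ' h
    simp only [EE]
    rw [ih (κ := fun v => κ (false :: v)) (κ' := fun v => κ' (false :: v)) (fun v hv => h _ (by simp [hv])),
      ih (κ := fun v => κ (true :: v)) (κ' := fun v => κ' (true :: v)) (fun v hv => h _ (by simp [hv]))]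

theorem EE_mul (N : ℕ) : ∀ κ κ' : List Bool → P, EE N κ * EE N κ' = EE N fun v => κ v * κ' v := by
  induction N with
  | zero => intro κ κ'; rfl
  | succ N ih =>
    intro κ κ'
    simp only [EE]
    rw [node_mul, ih, ih]

theorem EE_one (N : ℕ) : EE N (fun _ => 1) = 1 := by
  induction N with
  | zero => rfl
  | succ N ih => simp only [EE]; rw [ih]; simp

theorem EE_inv (N : ℕ) (κ : List Bool → P) : (EE N κ)⁻¹ = EE N fun v => (κ v)⁻¹ := by
  rw [inv_eq_iff_mul_eq_one, EE_mul]
  simp only [mul_inv_cancel]
  exact EE_one N

theorem EE_snoc (N : ℕ) : ∀ κ : List Bool → P,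
    EE (N + 1) κ = EE N fun v => node (κ (v ++ [false])) (κ (v ++ [true])) := by
  induction N with
  | zero => intro κ; rfl
  | succ N ih =>
    intro κ
    rw [EE, ih (fun v => κ (false :: v)), ih (fun v => κ (true :: v))]
    rfl

theorem EE_const_succ (N : ℕ) (z : P) : EE (N + 1) (fun _ => z) = EE N fun _ => node z z :=
  EE_snoc N _

/-- the section `z` placed at the word `t` -/
def pl : List Bool → P → P
  | [], z => z
  | false :: t, z => node (pl t z) 1
  | true :: t, z => node 1 (pl t z)

theorem pl_mul (t : List Bool) (y z : P) : pl t y * pl t z = pl t (y * z) := by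
  induction t with
  | nil => rfl
  | cons x t ih => cases x <;> simp only [pl] <;> rw [node_mul, ih] <;> simp

theorem pl_one (t : List Bool) : pl t 1 = 1 := by
  induction t with
  | nil => rfl
  | cons x t ih => cases x <;> simp [pl, ih]

theorem pl_inv (t : List Bool) (z : P) : (pl t z)⁻¹ = pl t z⁻¹ := by
  rw [inv_eq_iff_mul_eq_one, pl_mul]
  simp [pl_one]

theorem pl_append (s t : List Bool) (z : P) : pl (s ++ t) z = pl s (pl t z) := by
  induction s with
  | nil => rfl
  | cons x s ih => cases x <;> simp [pl, ih]

/-- `g` is represented by a word of length at most `X` -/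
def Cst (g : P) (X : ℝ) : Prop := ∃ w : List Lt, (w.length : ℝ) ≤ X ∧ ev w = g

theorem Cst.mono {g : P} {X Y : ℝ} (h : Cst g X) (hXY : X ≤ Y) : Cst g Y := by
  obtain ⟨w, h1, h2⟩ := h
  exact ⟨w, h1.trans hXY, h2⟩

theorem Cst.mul {g h : P} {X Y : ℝ} (hg : Cst g X) (hh : Cst h Y) : Cst (g * h) (X + Y) := by
  obtain ⟨w, h1, rfl⟩ := hg
  obtain ⟨u, h2, rfl⟩ := hh
  exact ⟨w ++ u, by rw [List.length_append]; push_cast; linarith, ev_append _ _⟩

theorem Cst.inv {g : P} {X : ℝ} (hg : Cst g X) : Cst g⁻¹ X := by
  obtain ⟨w, h1, rfl⟩ := hg
  exact ⟨w.reverse, by simpa using h1, ev_reverse _⟩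

theorem Cst.one : Cst 1 0 := ⟨[], by simp, rfl⟩

theorem Cst.mem {g : P} {X : ℝ} (hg : Cst g X) : g ∈ G := by
  obtain ⟨w, _, rfl⟩ := hg
  exact ev_mem w

/-- splitting a function on words of length `m + r` according to the last `r` letters -/
theorem split (m : ℕ) (X : ℝ) : ∀ (r : ℕ) (z : P),
    (∀ t : List Bool, t.length = r → ∀ q : List Bool → Bool, Cst (EE m fun v => if q v then pl t z else 1) X) →
    ∀ F : List Bool → Bool, Cst (EE (m + r) fun v => if F v then z else 1) (2 ^ r * X) := by
  intro r
  induction r with
  | zero =>
    intro z h F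
    have := h [] rfl F
    simpa [pl] using this
  | succ r ih =>
    intro z h F
    have h0 := ih (pl [false] z) (fun t ht q => by
      have := h (t ++ [false]) (by simp [ht]) q
      rwa [pl_append] at this) (fun v => F (v ++ [false]))
    have h1 := ih (pl [true] z) (fun t ht q => by
      have := h (t ++ [true]) (by simp [ht]) q
      rwa [pl_append] at this) (fun v => F (v ++ [true]))
    have h2 := h0.mul h1
    rw [EE_mul] at h2
    have e1 : EE (m + (r + 1)) (fun v => if F v then z else 1) =
        EE (m + r) fun v => (if F (v ++ [false]) = true then pl [false] z else 1) *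
          (if F (v ++ [true]) = true then pl [true] z else 1) := by
      rw [← add_assoc, EE_snoc]
      congr 1
      funext v
      cases F (v ++ [false]) <;> cases F (v ++ [true]) <;> simp [pl, node_mul]
    rw [e1]
    refine h2.mono (le_of_eq ?_)
    ring

end Pool.Agent.R505.Depth
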