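import Pool.Agent.R505.Depth.Rel
import Pool.Agent.H776R2.Grig.Realize

set_option autoImplicit false

/-! Exact realisation of elements with sections in `{1, x₀}` at level `N`, with length `O(λ^N)`. -/

namespace Pool.Agent.R505.Depth

open Pool.Agent.Results.MP_03d093_al.SphereBall Pool.Agent.H776R2.Grig

/-- elements represented by good words -/
def GG (z : P) : Prop := ∃ w, Good w ∧ ev w = z

theorem GG.mul {y z : P} (hy : GG y) (hz : GG z) : GG (y * z) := by
  obtain ⟨w, hw, rfl⟩ := hy
  obtain ⟨u, hu, rfl⟩ := hz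
  exact ⟨w ++ u, B_good_append hw hu, ev_append _ _⟩

theorem GG.one : GG 1 := ⟨[], B_good_nil, rfl⟩

theorem sig_reverse (w : List Lt) : sig w.reverse = (sig w).reverse := by
  induction w with
  | nil => rfl
  | cons s w ih =>
    rw [List.reverse_cons, B_sig_append, ih, B_sig_cons s w, List.reverse_append]
    congr 1
    cases s <;> simp [sig, sg]

theorem tau_reverse (w : List Lt) : tau w.reverse = (tau w)⁻¹ := by
  induction w with
  | nil => simp [tau]
  | cons s w ih =>
    rw [List.reverse_cons, B_tau_append, ih, B_tau_cons s w, mul_inv_rev]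
    congr 1
    cases s
    · simp only [tau, tauG, List.map_cons, List.map_nil, List.prod_cons, List.prod_nil, mul_one]
      exact (inv_eq_of_mul_eq_one_left dd).symm
    · simp [tau, tauG]
    · simp only [tau, tauG, List.map_cons, List.map_nil, List.prod_cons, List.prod_nil, mul_one]
      exact (inv_eq_of_mul_eq_one_left aa).symm
    · simp only [tau, tauG, List.map_cons, List.map_nil, List.prod_cons, List.prod_nil, mul_one]
      exact (inv_eq_of_mul_eq_one_left aa).symm

theorem good_reverse {w : List Lt} (h : Good w) : Good w.reverse := by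
  refine ⟨?_, ?_, ?_, ?_, ?_, ?_⟩
  · rw [tau_reverse, h.t1, inv_one]
  · rw [sig_reverse, tau_reverse, h.t2, inv_one]
  · rw [List.count_reverse]; exact h.eA
  · rw [List.count_reverse]; exact h.eB
  · rw [List.count_reverse]; exact h.eC
  · rw [List.count_reverse]; exact h.eD

theorem GG.inv {z : P} (hz : GG z) : GG z⁻¹ := by
  obtain ⟨w, hw, rfl⟩ := hz
  exact ⟨w.reverse, good_reverse hw, ev_reverse w⟩

theorem ev_join {w0 w1 : List Lt} (h0 : Good w0) (h1 : Good w1) :
    ev (B_join w0 w1) = node (ev w0) (ev w1) :=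
  eq_node (B_join_sec h0 h1) (ev_nil_apply _)

theorem GG.node {y z : P} (hy : GG y) (hz : GG z) : GG (node y z) := by
  obtain ⟨w, hw, rfl⟩ := hy
  obtain ⟨u, hu, rfl⟩ := hz
  exact ⟨B_join w u, B_join_good hw hu, ev_join hw hu⟩

theorem GG.x0 : GG x0 := ⟨_, B_good_abab, x0_ev⟩

theorem GG.pl (t : List Bool) {z : P} (hz : GG z) : GG (pl t z) := by
  induction t with
  | nil => exact hz
  | cons x t ih =>
    cases x
    · exact ih.node GG.one
    · exact GG.one.node ih

theorem GG.zz (i j : Bool) : GG (zz i j) := by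
  cases i <;> cases j
  · exact (GG.x0.mul (GG.x0.node GG.one)).mul GG.x0.inv
  · exact GG.x0.node GG.one
  · exact (GG.x0.inv.mul ((GG.x0.inv.mul (GG.one.node GG.x0)).mul GG.x0)).mul GG.x0
  · exact (GG.x0.inv.mul (GG.one.node GG.x0)).mul GG.x0

theorem lam_one : (1 : ℝ) ≤ lam := by have := lam_gt; linarith

theorem iter_exact (v : List V) (e : Bool) (z : P) (hz : a * z * a = z)
    (he : Even (v.count V.b) ↔ e = false) (h0 : ev (U v) * pa e = z) (k : ℕ) :
    (Even ((th^[k] v).count V.b) ↔ e = false) ∧
    a * (EE k fun _ => z) * a = (EE k fun _ => z) ∧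
    ev (U (th^[k] v)) * pa e = EE k fun _ => z := by
  induction k with
  | zero => exact ⟨he, hz, h0⟩
  | succ k ih =>
    obtain ⟨ih1, ih2, ih3⟩ := ih
    rw [Function.iterate_succ_apply']
    refine ⟨?_, ?_, ?_⟩
    · rw [count_b_th, Nat.even_add, ih1]
      have : Even (2 * (th^[k] v).count V.c) := even_two_mul _
      simp [this]
    · simp only [EE]
      exact a_node _ _
    · have hs := S_sec (th^[k] v) e ih1
      rw [ih3, ih2] at hs
      refine eq_node hs ?_
      rw [Equiv.Perm.mul_apply]
      have : pa e [] = [] := by cases e <;> rfl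
      rw [this, ev_nil_apply]

/-- constant sections -/
theorem special_exact {z : P} (hz : GG z) : ∃ S : ℝ, 0 < S ∧ ∀ m : ℕ, Cst (EE m fun _ => z) (S * lam ^ m) := by
  obtain ⟨w, hw, rfl⟩ := hz
  have hl1 := lam_one
  set W := B_join w w with hW
  have hWg : Good W := B_join_good hw hw
  have hWe : ev W = node (ev w) (ev w) := ev_join hw hw
  have hWa : a * ev W * a = ev W := by rw [hWe, a_node]
  refine ⟨w.length + (4 * W.length + 1), by positivity, ?_⟩
  intro m
  rcases m with _ | k
  · refine ⟨w, ?_, rfl⟩
    rw [pow_zero, mul_one]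
    have : (0 : ℝ) ≤ 4 * W.length + 1 := by positivity
    linarith
  · rw [EE_const_succ]
    obtain ⟨e0, e1, v, hev, hvl, -, hcd, hA⟩ := normal_form W
    have hcd' : Even (v.count V.c + v.count V.d) := hcd.2 (hWg.eC.add hWg.eD)
    have hA' : Even (v.length + e0.toNat + e1.toNat) := hA.2 hWg.eA
    have hpar : Even (v.count V.b) ↔ xor e0 e1 = false := by
      have h1 := S_count v
      rw [add_assoc] at h1
      have h2 : Even v.length ↔ Even (v.count V.b) := by
        rw [h1, Nat.even_add]
        simp [hcd']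
      rw [← h2]
      cases e0 <;> cases e1 <;>
        simp only [Bool.toNat_false, Bool.toNat_true, add_zero, Nat.even_add_one] at hA' <;>
        simp [hA'] <;> simpa using hA'
    have hconj : ev (U v) * pa (xor e0 e1) = ev W := by
      have h1 : pa e0 * pa e0 = 1 := by rw [S_pa_mul]; simp [pa]
      have h2 : pa e1 * pa e0 = pa (xor e0 e1) := by rw [S_pa_mul, Bool.xor_comm]
      have h3 : pa e0 * ev W * pa e0 = ev W := by
        cases e0
        · simp [pa]
        · simpa [pa] using hWa
      rw [← h3, hev]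
      calc ev (U v) * pa (xor e0 e1) = (pa e0 * pa e0) * ev (U v) * (pa e1 * pa e0) := by
            rw [h1, h2, one_mul]
        _ = _ := by simp only [mul_assoc]
    obtain ⟨-, -, hk⟩ := iter_exact v (xor e0 e1) (ev W) hWa hpar hconj k
    rw [hWe] at hk
    have hpk : (0 : ℝ) < lam ^ k := pow_pos lam_pos k
    have hpk1 : (1 : ℝ) ≤ lam ^ k := one_le_pow₀ hl1
    have hlen := length_th_iter v k
    have hvB : (v.length : ℝ) ≤ W.length := by exact_mod_cast hvl
    have hmain : (2 * (th^[k] v).length + 1 : ℝ) ≤ (4 * W.length + 1) * lam ^ k := by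
      have h1 : (2 * v.length * lam ^ k : ℝ) ≤ 2 * W.length * lam ^ k := by
        apply mul_le_mul_of_nonneg_right _ hpk.le
        linarith
      calc (2 * (th^[k] v).length + 1 : ℝ) ≤ 2 * (2 * W.length * lam ^ k) + lam ^ k := by linarith
        _ = (4 * W.length + 1) * lam ^ k := by ring
    have hcst : Cst (EE k fun _ => node (ev w) (ev w)) ((4 * W.length + 1) * lam ^ k) := by
      cases hx : xor e0 e1
      · refine ⟨U (th^[k] v), ?_, ?_⟩
        · rw [S_U_length]
          push_cast
          linarith
        · rw [hx] at hk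
          simpa [pa] using hk
      · refine ⟨U (th^[k] v) ++ [Lt.A], ?_, ?_⟩
        · rw [List.length_append, S_U_length]
          push_cast
          simp only [List.length_cons, List.length_nil]
          push_cast
          linarith
        · rw [hx] at hk
          simpa [pa, ev_append, gen] using hk
    refine hcst.mono ?_
    have h5 : lam ^ k ≤ lam ^ (k + 1) := by
      rw [pow_succ]; nlinarith
    calc (4 * (W.length : ℝ) + 1) * lam ^ k ≤ (4 * W.length + 1) * lam ^ (k + 1) :=
          mul_le_mul_of_nonneg_left h5 (by positivity)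
      _ ≤ (w.length + (4 * W.length + 1)) * lam ^ (k + 1) := by
          apply mul_le_mul_of_nonneg_right _ (by positivity)
          have : (0 : ℝ) ≤ w.length := Nat.cast_nonneg _
          linarith

/-- uniform constants over a finite set of words -/
theorem uniform (r : ℕ) (Q : List Bool → ℝ → Prop) (hmono : ∀ t S S', S ≤ S' → Q t S → Q t S')
    (h : ∀ t, ∃ S, Q t S) : ∃ S : ℝ, 0 < S ∧ ∀ t : List Bool, t.length = r → Q t S := by
  choose f hf using h
  have hfin : {t : List Bool | t.length = r}.Finite := List.finite_length_eq Bool r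
  obtain ⟨M, hM⟩ := (hfin.image f).bddAbove
  refine ⟨max M 1, by positivity, fun t ht => hmono t (f t) _ ?_ (hf t)⟩
  exact (hM ⟨t, ht, rfl⟩).trans (le_max_left _ _)

/-- small levels -/
theorem base_exact (N : ℕ) : ∃ B : ℕ, ∀ F : List Bool → Bool, ∃ w : List Lt, Good w ∧ w.length ≤ B ∧
    ev w = EE N fun v => if F v then x0 else 1 := by
  induction N with
  | zero =>
    refine ⟨4, fun F => ?_⟩
    rcases h : F [] with _ | _
    · exact ⟨[], B_good_nil, by simp, by simp [EE, h]⟩
    · exact ⟨_, B_good_abab, by simp, by simp only [EE, h]; exact x0_ev⟩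
  | succ N ih =>
    obtain ⟨B, hB⟩ := ih
    refine ⟨6 * B + 2, fun F => ?_⟩
    obtain ⟨w0, g0, l0, e0⟩ := hB (fun v => F (false :: v))
    obtain ⟨w1, g1, l1, e1⟩ := hB (fun v => F (true :: v))
    refine ⟨B_join w0 w1, B_join_good g0 g1, B_join_length w0 w1 B l0 l1, ?_⟩
    rw [ev_join g0 g1, e0, e1]
    rfl

theorem EE_cm (N : ℕ) (κ κ' : List Bool → P) : cm (EE N κ) (EE N κ') = EE N fun v => cm (κ v) (κ' v) := by
  unfold cm
  rw [EE_inv, EE_inv, EE_mul, EE_mul, EE_mul]

theorem Cst.cm {x y : P} {X Y : ℝ} (hx : Cst x X) (hy : Cst y Y) : Cst (cm x y) (2 * X + 2 * Y) :=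
  (((hx.mul hy).mul hx.inv).mul hy.inv).mono (by linarith)

/-- **exact realisation** -/
theorem realize_exact : ∃ A : ℝ, 0 < A ∧ ∀ (N : ℕ) (F : List Bool → Bool),
    Cst (EE N fun v => if F v then x0 else 1) (A * lam ^ N) := by
  -- special elements
  obtain ⟨S1, hS1, h1⟩ := uniform 8 (fun t S => ∀ m : ℕ, Cst (EE m fun _ => (pl t x0)⁻¹) (S * lam ^ m))
    (fun t S S' hS h m => (h m).mono (mul_le_mul_of_nonneg_right hS (pow_pos lam_pos m).le))
    (fun t => (special_exact (GG.x0.pl t).inv).imp fun S h => h.2)
  obtain ⟨S2, hS2, h2⟩ := uniform 8 (fun t S => ∀ (k l : Bool) (m : ℕ),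
      Cst (EE m fun _ => pl t (zz k l)) (S * lam ^ m))
    (fun t S S' hS h k l m => (h k l m).mono (mul_le_mul_of_nonneg_right hS (pow_pos lam_pos m).le))
    (fun t => by
      choose f hf0 hf using fun kl : Bool × Bool => special_exact ((GG.zz kl.1 kl.2).pl t)
      refine ⟨∑ kl : Bool × Bool, f kl, fun k l m => (hf (k, l) m).mono ?_⟩
      apply mul_le_mul_of_nonneg_right _ (pow_pos lam_pos m).le
      exact Finset.single_le_sum (f := f) (fun i _ => (hf0 i).le) (Finset.mem_univ _))
  choose B hB using base_exact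
  set A : ℝ := S1 + S2 + ∑ k ∈ Finset.range 10, (B k : ℝ) with hA
  have hsum : 0 ≤ ∑ k ∈ Finset.range 10, (B k : ℝ) :=
    Finset.sum_nonneg fun _ _ => Nat.cast_nonneg _
  have hA1 : S1 + S2 ≤ A := by linarith
  have hApos : 0 < A := by linarith
  refine ⟨A, hApos, ?_⟩
  intro N
  induction N using Nat.strong_induction_on with
  | _ N ih =>
    intro F
    by_cases hk : N < 10
    · obtain ⟨w, -, hw, hl⟩ := hB N F
      refine ⟨w, ?_, hl⟩
      have h3 : (B N : ℝ) ≤ ∑ k ∈ Finset.range 10, (B k : ℝ) :=
        Finset.single_le_sum (f := fun k => (B k : ℝ)) (fun _ _ => Nat.cast_nonneg _)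
          (Finset.mem_range.2 hk)
      have h4 : (w.length : ℝ) ≤ A := by
        have : (w.length : ℝ) ≤ B N := by exact_mod_cast hw
        linarith
      have h5 : (1 : ℝ) ≤ lam ^ N := one_le_pow₀ lam_one
      nlinarith
    · obtain ⟨m, rfl⟩ : ∃ m, N = m + 10 := ⟨N - 10, by omega⟩
      have key : ∀ t : List Bool, t.length = 10 → ∀ q : List Bool → Bool,
          Cst (EE m fun v => if q v then pl t x0 else 1) ((4 * A + 4 * S1 + 2 * S2) * lam ^ m) := by
        intro t ht q
        match t, ht with
        | [i, j, t0, t1, t2, t3, t4, t5, k, l], _ =>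
          have c0 := ih m (by omega) q
          have c1 := h1 ([i, j] ++ [t0, t1, t2, t3, t4, t5]) (by simp) m
          have c2 := h2 ([i, j] ++ [t0, t1, t2, t3, t4, t5]) (by simp) k l m
          have c3 := (c0.cm c1).cm c2
          rw [EE_cm, EE_cm] at c3
          have hc : (2 * (2 * (A * lam ^ m) + 2 * (S1 * lam ^ m)) + 2 * (S2 * lam ^ m) : ℝ) =
              (4 * A + 4 * S1 + 2 * S2) * lam ^ m := by ring
          rw [hc] at c3
          have cm_one : ∀ y : P, cm 1 y = 1 := fun y => by unfold Depth.cm; group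
          rcases double i j k l [t0, t1, t2, t3, t4, t5] with hd | hd
          · have e : (EE m fun v => if q v then pl [i, j, t0, t1, t2, t3, t4, t5, k, l] x0 else 1) =
                EE m fun v => cm (cm (if q v = true then x0 else 1)
                  (pl ([i, j] ++ [t0, t1, t2, t3, t4, t5]) x0)⁻¹)
                  (pl ([i, j] ++ [t0, t1, t2, t3, t4, t5]) (zz k l)) := by
              congr 1
              funext v
              cases q v
              · simp only [Bool.false_eq_true, if_false, cm_one]
              · simp only [if_true, hd]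
                rfl
            rw [e]
            exact c3
          · have e : (EE m fun v => if q v then pl [i, j, t0, t1, t2, t3, t4, t5, k, l] x0 else 1) =
                (EE m fun v => cm (cm (if q v = true then x0 else 1)
                  (pl ([i, j] ++ [t0, t1, t2, t3, t4, t5]) x0)⁻¹)
                  (pl ([i, j] ++ [t0, t1, t2, t3, t4, t5]) (zz k l)))⁻¹ := by
              rw [EE_inv]
              congr 1
              funext v
              cases q v
              · simp only [Bool.false_eq_true, if_false, cm_one, inv_one]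
              · simp only [if_true, hd, inv_inv]
                rfl
            rw [e]
            exact c3.inv
      have hfin := split m _ 10 x0 key F
      refine hfin.mono ?_
      have h10 := R_lam10
      have hm : 0 < lam ^ m := pow_pos lam_pos m
      rw [pow_add]
      have h6 : (2 : ℝ) ^ 10 * (4 * A + 4 * S1 + 2 * S2) ≤ A * 8192 := by
        norm_num
        linarith
      have h7 : A * 8192 ≤ A * lam ^ 10 := mul_le_mul_of_nonneg_left h10 hApos.le
      calc (2 : ℝ) ^ 10 * ((4 * A + 4 * S1 + 2 * S2) * lam ^ m)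
          = ((2 : ℝ) ^ 10 * (4 * A + 4 * S1 + 2 * S2)) * lam ^ m := by ring
        _ ≤ (A * lam ^ 10) * lam ^ m := mul_le_mul_of_nonneg_right (h6.trans h7) hm.le
        _ = A * (lam ^ m * lam ^ 10) := by ring

end Pool.Agent.R505.Depth
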