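import Pool.Agent.R505.Depth.Emb

set_option autoImplicit false

/-! Relations for `x₀ = (ab)²`. -/

namespace Pool.Agent.R505.Depth

open Pool.Agent.Results.MP_03d093_al.SphereBall Pool.Agent.H776R2.Grig

theorem bb : b * b = 1 := gen_sq .B
theorem cc : c * c = 1 := gen_sq .C

/-- `x₀ = (ab)²` -/
def x0 : P := a * b * a * b

theorem x0_node : x0 = node (c * a) (a * c) := by
  have h : x0 = (a * node a c * a) * node a c := by
    rw [← b_eq]; simp only [x0, mul_assoc]
  rw [h, a_node, node_mul]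

theorem x0_ev : ev [Lt.A, Lt.B, Lt.A, Lt.B] = x0 := by
  simp [gen, x0, mul_assoc]

theorem x0_inv : x0⁻¹ = b * a * b * a := by
  rw [inv_eq_iff_mul_eq_one]
  calc x0 * (b * a * b * a) = a * b * a * (b * b) * a * b * a := by unfold x0; group
    _ = a * b * (a * a) * b * a := by rw [bb]; group
    _ = a * (b * b) * a := by rw [aa]; group
    _ = 1 := by rw [bb, mul_one, aa]

theorem x0_inv_node : x0⁻¹ = node (a * c) (c * a) := by
  rw [x0_node, node_inv]
  rfl

theorem a_x0 : a * x0 * a = x0⁻¹ := by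
  rw [x0_inv]
  calc a * x0 * a = (a * a) * b * a * b * a := by unfold x0; group
    _ = b * a * b * a := by rw [aa, one_mul]

theorem b_x0 : b * x0 * b = x0⁻¹ := by
  rw [x0_inv]
  calc b * x0 * b = b * a * b * a * (b * b) := by unfold x0; group
    _ = b * a * b * a := by rw [bb, mul_one]

/-- conjugation by `a` -/
theorem cj_a (p q : P) : a * node p q * a = node q p := a_node p q

/-- conjugation by `b` -/
theorem cj_b (p q : P) : b * node p q * b = node (a * p * a) (c * q * c) := by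
  nth_rewrite 1 [b_eq]
  nth_rewrite 1 [b_eq]
  rw [node_mul, node_mul]

/-- conjugation by `c` -/
theorem cj_c (p q : P) : c * node p q * c = node (a * p * a) (d * q * d) := by
  nth_rewrite 1 [c_eq]
  nth_rewrite 1 [c_eq]
  rw [node_mul, node_mul]

/-- conjugation by `d` -/
theorem cj_d (p q : P) : d * node p q * d = node p (b * q * b) := by
  nth_rewrite 1 [d_eq]
  nth_rewrite 1 [d_eq]
  rw [node_mul, node_mul, one_mul, mul_one]

theorem cj_ca (p q : P) : (c * a) * node p q * (a * c) = node (a * q * a) (d * p * d) := by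
  have : (c * a) * node p q * (a * c) = c * (a * node p q * a) * c := by group
  rw [this, cj_a, cj_c]

theorem cj_ac (p q : P) : (a * c) * node p q * (c * a) = node (d * q * d) (a * p * a) := by
  have : (a * c) * node p q * (c * a) = a * (c * node p q * c) * a := by group
  rw [this, cj_c, cj_a]

/-- conjugation by `x₀` -/
theorem cj_x0 (p q : P) : x0 * node p q * x0⁻¹ = node ((c * a) * p * (a * c)) ((a * c) * q * (c * a)) := by
  rw [x0_inv_node]
  nth_rewrite 1 [x0_node]
  rw [node_mul, node_mul]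

/-- conjugation by `x₀⁻¹` -/
theorem cj_x0' (p q : P) : x0⁻¹ * node p q * x0 = node ((a * c) * p * (c * a)) ((c * a) * q * (a * c)) := by
  rw [x0_inv_node]
  nth_rewrite 1 [x0_node]
  rw [node_mul, node_mul]

/-- `[ca, x₀] = (1, x₀⁻¹)` -/
theorem rel1 : (c * a) * x0 * (a * c) * x0⁻¹ = node 1 x0⁻¹ := by
  nth_rewrite 1 [x0_node]
  rw [cj_ca]
  nth_rewrite 1 [x0_inv_node]
  rw [node_mul]
  congr 1
  · calc a * (a * c) * a * (a * c) = (a * a) * c * (a * a) * c := by group
      _ = 1 := by rw [aa, one_mul, mul_one, cc]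
  · rw [x0_inv]
    calc d * (c * a) * d * (c * a) = (d * c) * a * (d * c) * a := by group
      _ = b * a * b * a := by rw [F_dc]

/-- `[ac, x₀] = (d x₀ d, 1)` -/
theorem rel2 : (a * c) * x0 * (c * a) * x0⁻¹ = node (d * x0 * d) 1 := by
  nth_rewrite 1 [x0_node]
  rw [cj_ac, x0_inv_node, node_mul]
  congr 1
  · calc d * (a * c) * d * (a * c) = d * a * (c * d) * a * c := by group
      _ = d * a * b * a * (b * d) := by rw [F_cd, F_bd]
      _ = d * x0 * d := by unfold x0; group
  · calc a * (c * a) * a * (c * a) = a * c * (a * a) * c * a := by group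
      _ = a * (c * c) * a := by rw [aa]; group
      _ = 1 := by rw [cc, mul_one, aa]

/-- `d x₀ d = (1, x₀⁻¹) x₀` -/
theorem rel3 : d * x0 * d = node 1 x0⁻¹ * x0 := by
  have h1 : d * x0 * d * x0⁻¹ = node 1 x0⁻¹ := by
    nth_rewrite 1 [x0_node]
    rw [cj_d]
    nth_rewrite 1 [x0_inv_node]
    rw [node_mul]
    congr 1
    · calc c * a * (a * c) = c * (a * a) * c := by group
        _ = 1 := by rw [aa, mul_one, cc]
    · rw [x0_inv]
      calc b * (a * c) * b * (c * a) = b * a * (c * b) * c * a := by group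
        _ = b * a * (d * c) * a := by rw [F_cb]; group
        _ = b * a * b * a := by rw [F_dc]
  rw [← h1]
  group

/-- `c x₀ c = (1, d x₀ d) x₀⁻¹` -/
theorem rel4 : c * x0 * c = node 1 (d * x0 * d) * x0⁻¹ := by
  have h1 : c * x0 * c * x0 = node 1 (d * x0 * d) := by
    nth_rewrite 1 [x0_node]
    rw [cj_c]
    nth_rewrite 1 [x0_node]
    rw [node_mul]
    congr 1
    · calc a * (c * a) * a * (c * a) = a * c * (a * a) * c * a := by group
        _ = a * (c * c) * a := by rw [aa]; group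
        _ = 1 := by rw [cc, mul_one, aa]
    · calc d * (a * c) * d * (a * c) = d * a * (c * d) * a * c := by group
        _ = d * a * b * a * (b * d) := by rw [F_cd, F_bd]
        _ = d * x0 * d := by unfold x0; group
  rw [← h1]
  group

/-- commutator -/
def cm (x y : P) : P := x * y * x⁻¹ * y⁻¹

/-- the four conjugators -/
def zz : Bool → Bool → P
  | false, true => node x0 1
  | false, false => x0 * node x0 1 * x0⁻¹
  | true, true => x0⁻¹ * node 1 x0 * x0
  | true, false => x0⁻¹ * (x0⁻¹ * node 1 x0 * x0) * x0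

theorem cm_01 : cm x0 (node x0 1) = pl [false, true] x0⁻¹ := by
  unfold cm
  rw [cj_x0, node_inv, node_mul, rel1]
  have : (a * c) * 1 * (c * a) * (1 : P)⁻¹ = 1 := by
    calc (a * c) * 1 * (c * a) * (1 : P)⁻¹ = a * (c * c) * a := by group
      _ = 1 := by rw [cc, mul_one, aa]
  rw [this]
  rfl

theorem caac : (c * a) * 1 * (a * c) = 1 := by
  calc (c * a) * 1 * (a * c) = c * (a * a) * c := by group
    _ = 1 := by rw [aa, mul_one, cc]

theorem acca : (a * c) * 1 * (c * a) = 1 := by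
  calc (a * c) * 1 * (c * a) = a * (c * c) * a := by group
    _ = 1 := by rw [cc, mul_one, aa]

theorem cm_conj (g x y : P) : cm (g * x * g⁻¹) (g * y * g⁻¹) = g * cm x y * g⁻¹ := by
  unfold cm; group

theorem a_inv_x0 : a * x0⁻¹ * a = x0 := by
  have := a_x0
  rw [← this]
  calc a * (a * x0 * a) * a = (a * a) * x0 * (a * a) := by group
    _ = x0 := by rw [aa, one_mul, mul_one]

theorem cm_00 : cm x0 (x0 * node x0 1 * x0⁻¹) = pl [false, false] x0 := by
  have h := cm_conj x0 x0 (node x0 1)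
  rw [show x0 * x0 * x0⁻¹ = x0 by group, cm_01] at h
  rw [h]
  simp only [pl]
  rw [cj_x0, cj_ca, acca, a_inv_x0]
  congr 2
  calc d * 1 * d = d * d := by group
    _ = 1 := dd

theorem cm_10 : cm x0 (node 1 x0) = pl [true, false] (d * x0 * d) := by
  unfold cm
  rw [cj_x0, node_inv, node_mul, rel2]
  have : (c * a) * 1 * (a * c) * (1 : P)⁻¹ = 1 := by rw [caac]; simp
  rw [this]
  rfl

theorem cm_11 : cm x0 (x0⁻¹ * node 1 x0 * x0) = pl [true, true] x0 := by
  have h := cm_conj x0⁻¹ x0 (node 1 x0)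
  rw [inv_inv, show x0⁻¹ * x0 * x0 = x0 by group, cm_10] at h
  rw [h]
  simp only [pl]
  rw [cj_x0', cj_ca, acca]
  have e1 : a * 1 * a = (1 : P) := by rw [mul_one, aa]
  have e2 : d * (d * x0 * d) * d = x0 := by
    calc d * (d * x0 * d) * d = (d * d) * x0 * (d * d) := by group
      _ = x0 := by rw [dd, one_mul, mul_one]
  rw [e1, e2]

theorem cm_10' : cm x0 (x0⁻¹ * (x0⁻¹ * node 1 x0 * x0) * x0) = pl [true, false] x0⁻¹ := by
  have h := cm_conj x0⁻¹ x0 (x0⁻¹ * node 1 x0 * x0)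
  rw [inv_inv, show x0⁻¹ * x0 * x0 = x0 by group, cm_11] at h
  rw [h]
  simp only [pl]
  rw [cj_x0', cj_ca, acca]
  have e1 : d * 1 * d = (1 : P) := by rw [mul_one, dd]
  rw [e1, a_x0]

/-- every `pl [i, j] x₀^{±1}` is a commutator `[x₀, z]` -/
theorem cm_zz (i j : Bool) : cm x0 (zz i j) = pl [i, j] x0 ∨ cm x0 (zz i j) = pl [i, j] x0⁻¹ := by
  cases i <;> cases j
  · exact Or.inl cm_00
  · exact Or.inr cm_01
  · exact Or.inr cm_10'
  · exact Or.inl cm_11

/-- `x₀` moves the subtree below `[i, j]` to the one below `[i, !j]` -/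
theorem x0_move (i j : Bool) (y : P) : ∃ y', x0 * pl [i, j] y * x0⁻¹ = pl [i, !j] y' := by
  cases i <;> cases j <;> simp only [pl, Bool.not_false, Bool.not_true]
  · refine ⟨d * y * d, ?_⟩
    rw [cj_x0, cj_ca, acca, mul_one a, aa]
  · refine ⟨a * y * a, ?_⟩
    rw [cj_x0, cj_ca, acca, mul_one d, dd]
  · refine ⟨a * y * a, ?_⟩
    rw [cj_x0, cj_ac, caac, mul_one d, dd]
  · refine ⟨d * y * d, ?_⟩
    rw [cj_x0, cj_ac, caac, mul_one a, aa]

theorem pl_comm (i j : Bool) (y z : P) : pl [i, !j] y * pl [i, j] z = pl [i, j] z * pl [i, !j] y := by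
  cases i <;> cases j <;> simp [pl, node_mul]

/-- isolating one place with a double commutator -/
theorem isolate (i j : Bool) (Y Z : P) :
    cm (cm x0 (pl [i, j] Y)⁻¹) (pl [i, j] Z) = pl [i, j] (cm Y Z) := by
  obtain ⟨y', hy'⟩ := x0_move i j Y⁻¹
  have h1 : cm x0 (pl [i, j] Y)⁻¹ = pl [i, !j] y' * pl [i, j] Y := by
    unfold cm
    rw [inv_inv, pl_inv, hy']
  rw [h1]
  have e := pl_comm i j y' Z
  have e2 : cm (pl [i, !j] y' * pl [i, j] Y) (pl [i, j] Z) =
      pl [i, !j] y' * (pl [i, j] Y * pl [i, j] Z * (pl [i, j] Y)⁻¹) * (pl [i, !j] y')⁻¹ * (pl [i, j] Z)⁻¹ := by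
    unfold cm; group
  rw [e2, pl_inv [i, j] Y, pl_mul, pl_mul]
  have e3 := pl_comm i j y' (Y * Z * Y⁻¹)
  rw [e3]
  rw [pl_inv [i, j] Z]
  have e4 : pl [i, j] (Y * Z * Y⁻¹) * pl [i, !j] y' * (pl [i, !j] y')⁻¹ * pl [i, j] Z⁻¹ =
      pl [i, j] (Y * Z * Y⁻¹) * pl [i, j] Z⁻¹ := by group
  rw [e4, pl_mul]
  rfl

theorem pl_cm (t : List Bool) (y z : P) : cm (pl t y) (pl t z) = pl t (cm y z) := by
  unfold cm
  rw [pl_inv, pl_inv, pl_mul, pl_mul, pl_mul]

/-- the double commutator for a word `i j t k l` -/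
theorem double (i j k l : Bool) (t : List Bool) :
    cm (cm x0 (pl ([i, j] ++ t) x0)⁻¹) (pl ([i, j] ++ t) (zz k l)) = pl ([i, j] ++ t ++ [k, l]) x0 ∨
    cm (cm x0 (pl ([i, j] ++ t) x0)⁻¹) (pl ([i, j] ++ t) (zz k l)) = (pl ([i, j] ++ t ++ [k, l]) x0)⁻¹ := by
  rw [pl_append [i, j] t, pl_append [i, j] t, isolate, pl_cm]
  rcases cm_zz k l with h | h
  · left
    rw [h, ← pl_append, ← pl_append]
  · right
    rw [h, ← pl_append, ← pl_append, pl_inv]

end Pool.Agent.R505.Depth
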