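import Pool.Agent.R505.Depth.Dec
import Pool.Agent.H776R2.Diam.Fin2

set_option autoImplicit false

/-! Depth: definition and basic properties. -/

namespace Pool.Agent.R505.Depth

open Pool.Agent.Results.MP_03d093_al.SphereBall Pool.Agent.H776R2.Grig

/-- every section of `g` at level `n` is one of `1, a, b, c, d` -/
def IsShallow (n : ℕ) (g : P) : Prop :=
  ∀ u : List Bool, u.length = n → ∃ h : P, (h = 1 ∨ h = a ∨ h = b ∨ h = c ∨ h = d) ∧
    ∀ w : List Bool, g (u ++ w) = g u ++ h w

/-- the least `n` such that every section of `g` at level `n` is one of `1, a, b, c, d` -/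
noncomputable def depth (g : G) : ℕ := sInf {n : ℕ | IsShallow n (g : P)}

theorem pa_cons (e x : Bool) (w : List Bool) : pa e (x :: w) = (xor x e) :: w := by
  cases e
  · simp [pa]
  · simp [pa, a_apply, aFun]

theorem sh_succ {n : ℕ} {g g0 g1 : P} {e : Bool} (hg : g = node g0 g1 * pa e) :
    IsShallow (n + 1) g ↔ IsShallow n g0 ∧ IsShallow n g1 := by
  have key : ∀ (x : Bool) (v : List Bool), g ((xor x e) :: v) = x :: (if x then g1 else g0) v := by
    intro x v
    rw [hg, Equiv.Perm.mul_apply, pa_cons, Bool.xor_assoc, Bool.xor_self, Bool.xor_false]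
    cases x <;> simp
  constructor
  · intro h
    have hh : ∀ x : Bool, IsShallow n (if x then g1 else g0) := by
      intro x u hu
      obtain ⟨k, hk, hw⟩ := h ((xor x e) :: u) (by simp [hu])
      refine ⟨k, hk, fun w => ?_⟩
      have := hw w
      rw [List.cons_append, key, key, List.cons_append, List.cons.injEq] at this
      exact this.2
    exact ⟨by simpa using hh false, by simpa using hh true⟩
  · rintro ⟨h0, h1⟩ u hu
    match u, hu with
    | x :: u, hu =>
      have hu' : u.length = n := by simpa using hu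
      have hh : IsShallow n (if (xor x e) then g1 else g0) := by
        cases (xor x e)
        · simpa using h0
        · simpa using h1
      obtain ⟨k, hk, hw⟩ := hh u hu'
      refine ⟨k, hk, fun w => ?_⟩
      have e1 : x = xor (xor x e) e := by rw [Bool.xor_assoc, Bool.xor_self, Bool.xor_false]
      have k1 : g (x :: (u ++ w)) = (xor x e) :: (if (xor x e) then g1 else g0) (u ++ w) := by
        conv_lhs => rw [e1]
        exact key _ _
      have k2 : g (x :: u) = (xor x e) :: (if (xor x e) then g1 else g0) u := by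
        conv_lhs => rw [e1]
        exact key _ _
      rw [List.cons_append, k1, k2, List.cons_append, hw w]

theorem sh_zero {g : P} : IsShallow 0 g ↔ g [] = [] ∧ (g = 1 ∨ g = a ∨ g = b ∨ g = c ∨ g = d) := by
  constructor
  · intro h
    obtain ⟨k, hk, hw⟩ := h [] rfl
    have hk0 : k [] = [] := by
      rcases hk with h | h | h | h | h <;> subst h <;> rfl
    have h0 : g [] = [] := by
      have := hw []
      rw [hk0] at this
      have h1 := hw (g.symm [])
      simp only [List.nil_append, Equiv.apply_symm_apply] at h1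
      exact (List.append_eq_nil_iff.1 h1.symm).1
    refine ⟨h0, ?_⟩
    have : g = k := by
      ext1 w
      have := hw w
      simpa [h0] using this
    rwa [this]
  · rintro ⟨h0, h⟩ u hu
    have : u = [] := by simpa using hu
    subst this
    exact ⟨g, h, fun w => by simp [h0]⟩

theorem Sn_of_shallow (n : ℕ) : ∀ {g : P}, g ∈ G → IsShallow n g → Sn n 9 g := by
  induction n with
  | zero =>
    intro g hg h
    refine ⟨hg, ?_⟩
    have hK : ∀ s : Lt, K (gen s) ≤ 9 := by
      intro s
      have := K_ev_le [s]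
      simp only [ev_cons, ev_nil, mul_one, List.length_cons, List.length_nil] at this
      norm_num at this
      linarith
    rcases (sh_zero.1 h).2 with h | h | h | h | h <;> subst h
    · have := K_ev_le []
      simp only [ev_nil, List.length_nil] at this
      norm_num at this
      linarith
    · exact hK .A
    · exact hK .B
    · exact hK .C
    · exact hK .D
  | succ n ih =>
    intro g hg h
    obtain ⟨e, g0, h0, g1, h1, he, _⟩ := G_dec hg
    obtain ⟨s0, s1⟩ := (sh_succ he).1 h
    exact ⟨e, g0, g1, ih h0 s0, ih h1 s1, he⟩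

theorem gen_dec (s : Lt) : ∃ (e : Bool) (g0 g1 : P), gen s = node g0 g1 * pa e ∧
    IsShallow 0 g0 ∧ IsShallow 0 g1 := by
  have s1 : IsShallow 0 (1 : P) := sh_zero.2 ⟨rfl, Or.inl rfl⟩
  have sa : IsShallow 0 a := sh_zero.2 ⟨rfl, by simp⟩
  have sb : IsShallow 0 b := sh_zero.2 ⟨rfl, by simp⟩
  have sc : IsShallow 0 c := sh_zero.2 ⟨rfl, by simp⟩
  have sd : IsShallow 0 d := sh_zero.2 ⟨rfl, by simp⟩
  cases s
  · exact ⟨true, 1, 1, by simp [gen, pa], s1, s1⟩
  · exact ⟨false, a, c, by simpa [gen, pa] using b_eq, sa, sc⟩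
  · exact ⟨false, a, d, by simpa [gen, pa] using c_eq, sa, sd⟩
  · exact ⟨false, 1, b, by simpa [gen, pa] using d_eq, s1, sb⟩

theorem sh_mono_one (n : ℕ) : ∀ {g : P}, g ∈ G → IsShallow n g → IsShallow (n + 1) g := by
  induction n with
  | zero =>
    intro g hg h
    have hgen : ∀ s : Lt, IsShallow 1 (gen s) := by
      intro s
      obtain ⟨e, g0, g1, he, h0, h1⟩ := gen_dec s
      exact (sh_succ he).2 ⟨h0, h1⟩
    rcases (sh_zero.1 h).2 with h | h | h | h | h <;> subst h
    · have s1 : IsShallow 0 (1 : P) := sh_zero.2 ⟨rfl, Or.inl rfl⟩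
      exact (sh_succ (g := 1) (g0 := 1) (g1 := 1) (e := false) (by simp [pa])).2 ⟨s1, s1⟩
    · exact hgen .A
    · exact hgen .B
    · exact hgen .C
    · exact hgen .D
  | succ n ih =>
    intro g hg h
    obtain ⟨e, g0, h0, g1, h1, he, _⟩ := G_dec hg
    obtain ⟨s0, s1⟩ := (sh_succ he).1 h
    exact (sh_succ he).2 ⟨ih h0 s0, ih h1 s1⟩

theorem sh_mono {n m : ℕ} (hnm : n ≤ m) {g : P} (hg : g ∈ G) (h : IsShallow n g) : IsShallow m g := by
  induction m, hnm using Nat.le_induction with
  | base => exact h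
  | succ m _ ih => exact sh_mono_one m hg ih

theorem word_dec (w : List Lt) : ∃ (e : Bool) (w0 w1 : List Lt), ev w = node (ev w0) (ev w1) * pa e ∧
    w0.length + w.count Lt.A ≤ w.length ∧ w1.length + w.count Lt.A ≤ w.length := by
  induction w with
  | nil => exact ⟨false, [], [], by simp [pa], by simp, by simp⟩
  | cons s w ih =>
    obtain ⟨e, w0, w1, he, h0, h1⟩ := ih
    cases s
    · refine ⟨!e, w1, w0, ?_, by simp; omega, by simp; omega⟩
      rw [ev_cons, he, ← N_a_pa]
      show a * (node (ev w0) (ev w1) * pa e) = _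
      have h2 : a * (node (ev w0) (ev w1) * pa e) = (a * node (ev w0) (ev w1) * a) * (a * pa e) := by
        rw [mul_assoc (a * node (ev w0) (ev w1)) a, ← mul_assoc a a, aa, one_mul, mul_assoc]
      rw [h2, a_node]
    · refine ⟨e, .A :: w0, .C :: w1, ?_, by simp [List.count_cons]; omega,
        by simp [List.count_cons]; omega⟩
      rw [ev_cons, he, ← mul_assoc]
      show b * _ * _ = _
      rw [b_eq, node_mul]
      simp [gen]
    · refine ⟨e, .A :: w0, .D :: w1, ?_, by simp [List.count_cons]; omega,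
        by simp [List.count_cons]; omega⟩
      rw [ev_cons, he, ← mul_assoc]
      show c * _ * _ = _
      rw [c_eq, node_mul]
      simp [gen]
    · refine ⟨e, w0, .B :: w1, ?_, by simp [List.count_cons]; omega,
        by simp [List.count_cons]; omega⟩
      rw [ev_cons, he, ← mul_assoc]
      show d * _ * _ = _
      rw [d_eq, node_mul]
      simp [gen]

theorem noA (w : List Lt) (h : w.count Lt.A = 0) : ev w = 1 ∨ ev w = b ∨ ev w = c ∨ ev w = d := by
  induction w with
  | nil => exact Or.inl rfl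
  | cons s w ih =>
    cases s
    · simp at h
    · rw [List.count_cons_of_ne (by decide)] at h
      rw [ev_cons]
      rcases ih h with e | e | e | e <;> rw [e]
      · simp [gen]
      · simp [gen, bb]
      · simp [gen, F_bc]
      · simp [gen, F_bd]
    · rw [List.count_cons_of_ne (by decide)] at h
      rw [ev_cons]
      rcases ih h with e | e | e | e <;> rw [e]
      · simp [gen]
      · simp [gen, F_cb]
      · simp [gen, cc]
      · simp [gen, F_cd]
    · rw [List.count_cons_of_ne (by decide)] at h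
      rw [ev_cons]
      rcases ih h with e | e | e | e <;> rw [e]
      · simp [gen]
      · simp [gen, F_db]
      · simp [gen, F_dc]
      · simp [gen, dd]

theorem exists_shallow_word (l : ℕ) : ∀ w : List Lt, w.length ≤ l → ∃ n, IsShallow n (ev w) := by
  induction l with
  | zero =>
    intro w hw
    have : w = [] := by simpa using hw
    subst this
    exact ⟨0, sh_zero.2 ⟨rfl, Or.inl rfl⟩⟩
  | succ l ih =>
    intro w hw
    rcases Nat.eq_zero_or_pos (w.count Lt.A) with h | h
    · refine ⟨0, sh_zero.2 ⟨ev_nil_apply w, ?_⟩⟩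
      rcases noA w h with e | e | e | e <;> simp [e]
    · obtain ⟨e, w0, w1, he, h0, h1⟩ := word_dec w
      obtain ⟨n0, hn0⟩ := ih w0 (by omega)
      obtain ⟨n1, hn1⟩ := ih w1 (by omega)
      exact ⟨max n0 n1 + 1, (sh_succ he).2 ⟨sh_mono (le_max_left _ _) (ev_mem _) hn0,
        sh_mono (le_max_right _ _) (ev_mem _) hn1⟩⟩

theorem exists_shallow (g : G) : ∃ n, IsShallow n (g : P) := by
  obtain ⟨w, hw⟩ := exists_word g.2
  rw [← hw]
  exact exists_shallow_word _ w le_rfl

theorem depth_spec (g : G) : IsShallow (depth g) (g : P) := Nat.sInf_mem (exists_shallow g)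

theorem depth_le {n : ℕ} {g : G} (h : IsShallow n (g : P)) : depth g ≤ n := Nat.sInf_le h

theorem DD_word {t : P} (ht : t ∈ DD) : ∃ w : List Lt, w.length ≤ 4 ∧ ev w = t := by
  simp only [DD, Set.mem_insert_iff, Set.mem_singleton_iff] at ht
  rcases ht with h | h | h | h | h | h | h | h <;> subst h
  · exact ⟨[], by simp, rfl⟩
  · exact ⟨[.A], by simp, by simp [gen]⟩
  · exact ⟨[.D], by simp, by simp [gen]⟩
  · exact ⟨[.A, .D], by simp, by simp [gen]⟩
  · exact ⟨[.D, .A], by simp, by simp [gen]⟩
  · exact ⟨[.A, .D, .A], by simp, by simp [gen, mul_assoc]⟩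
  · exact ⟨[.D, .A, .D], by simp, by simp [gen, mul_assoc]⟩
  · exact ⟨[.A, .D, .A, .D], by simp, by simp [gen, mul_assoc]⟩

theorem exists_J (n : ℕ) : ∃ J : ℕ, (18 : ℝ) + n * R1 ≤ mu ^ J ∧ lam ^ J ≤ (55 * ((n : ℝ) + 1)) ^ 5 := by
  have hmu := mu_bounds
  have hmu0 : 0 < mu := by linarith
  have hex : ∃ J : ℕ, (18 : ℝ) + n * R1 ≤ mu ^ J := by
    obtain ⟨J, hJ⟩ := pow_unbounded_of_one_lt ((18 : ℝ) + n * R1) (by linarith : 1 < mu)
    exact ⟨J, hJ.le⟩
  classical
  refine ⟨Nat.find hex, Nat.find_spec hex, ?_⟩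
  have hn : (0 : ℝ) ≤ n := Nat.cast_nonneg n
  have hJ0 : Nat.find hex ≠ 0 := by
    intro h0
    have := Nat.find_spec hex
    rw [h0, pow_zero] at this
    unfold R1 at this
    linarith
  obtain ⟨J, hJ⟩ := Nat.exists_eq_succ_of_ne_zero hJ0
  have hlt : mu ^ J < 18 + n * R1 := by
    have := Nat.find_min hex (m := J) (by omega)
    push Not at this
    exact this
  rw [hJ]
  have h1 : lam ≤ mu ^ 5 := by
    have h2 : lam = 2 * mu := by unfold mu; ring
    rw [h2]
    have h3 : (2 : ℝ) ≤ mu ^ 4 := by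
      have : (1.2325 : ℝ) ^ 4 ≤ mu ^ 4 := pow_le_pow_left₀ (by norm_num) hmu.1.le 4
      refine le_trans ?_ this
      norm_num
    calc 2 * mu ≤ mu ^ 4 * mu := mul_le_mul_of_nonneg_right h3 hmu0.le
      _ = mu ^ 5 := by ring
  have h4 : mu ^ (J + 1) ≤ 55 * ((n : ℝ) + 1) := by
    rw [pow_succ]
    unfold R1 at hlt
    have : mu ^ J * mu ≤ (18 + n * 44) * mu := mul_le_mul_of_nonneg_right hlt.le hmu0.le
    nlinarith
  calc lam ^ (J + 1) ≤ (mu ^ 5) ^ (J + 1) := pow_le_pow_left₀ lam_pos.le h1 _
    _ = (mu ^ (J + 1)) ^ 5 := by rw [← pow_mul, ← pow_mul]; ring_nf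
    _ ≤ (55 * ((n : ℝ) + 1)) ^ 5 := pow_le_pow_left₀ (by positivity) h4 5

/-- **upper bound for the length of elements of depth at most `n`** -/
theorem len_bound : ∃ C : ℝ, 0 < C ∧ ∀ (n : ℕ) (g : G), IsShallow n (g : P) →
    (len g : ℝ) ≤ C * ((n : ℝ) + 1) ^ 5 * lam ^ n := by
  obtain ⟨C, hC, h⟩ := L_bound
  refine ⟨5 + C * 55 ^ 5, by positivity, ?_⟩
  intro n g hg
  obtain ⟨w, hw⟩ := exists_word g.2
  obtain ⟨t, ht, e, k, hk, hwk⟩ := coset w
  obtain ⟨u, hu4, hut⟩ := DD_word ht
  set u' : List Lt := u ++ (if e then [Lt.B] else []) with hu'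
  have hu'l : u'.length ≤ 5 := by
    rw [hu', List.length_append]
    cases e <;> simp <;> omega
  have hu'e : ev u' = t * pb e := by
    rw [hu', ev_append, hut]
    cases e <;> simp [pb, gen]
  have hkeq : k = ev u'.reverse * (g : P) := by
    rw [ev_reverse, hu'e, ← hw, hwk]
    group
  have hS : Sn n 18 k := by
    rw [hkeq]
    have h1 : Sn n 9 (ev u'.reverse) := Sn.of_G le_rfl (ev_mem _) (by
      have := K_ev_le u'.reverse
      rw [List.length_reverse] at this
      have h5 : (u'.length : ℝ) ≤ 5 := by exact_mod_cast hu'l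
      linarith)
    have h2 := h1.mul (Sn_of_shallow n g.2 hg)
    norm_num at h2
    exact h2
  obtain ⟨J, hJ1, hJ2⟩ := exists_J n
  have hc := h n J 18 k hk hS (by norm_num) hJ1
  have hcu : Cst (ev u') 5 := ⟨u', by exact_mod_cast hu'l, rfl⟩
  have hcg := hcu.mul hc
  rw [hu'e, ← hwk, hw] at hcg
  obtain ⟨v, hv1, hv2⟩ := hcg
  have hlen : (len g : ℝ) ≤ v.length := by
    have h1 := len_le v
    have h2 : evG v = g := Subtype.ext hv2
    rw [h2] at h1
    exact_mod_cast h1
  refine hlen.trans (hv1.trans ?_)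
  have hn : (0 : ℝ) ≤ n := Nat.cast_nonneg n
  have hp : (1 : ℝ) ≤ ((n : ℝ) + 1) ^ 5 := one_le_pow₀ (by linarith)
  have hl : (1 : ℝ) ≤ lam ^ n := one_le_pow₀ lam_one
  rw [pow_add]
  have h1 : C * (lam ^ n * lam ^ J) ≤ C * (lam ^ n * (55 * ((n : ℝ) + 1)) ^ 5) := by
    apply mul_le_mul_of_nonneg_left _ hC
    exact mul_le_mul_of_nonneg_left hJ2 (by positivity)
  have h2 : (1 : ℝ) ≤ ((n : ℝ) + 1) ^ 5 * lam ^ n := by nlinarith
  calc 5 + C * (lam ^ n * lam ^ J) ≤ 5 * (((n : ℝ) + 1) ^ 5 * lam ^ n) +
        C * (lam ^ n * (55 * ((n : ℝ) + 1)) ^ 5) := by linarith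
    _ = (5 + C * 55 ^ 5) * ((n : ℝ) + 1) ^ 5 * lam ^ n := by ring

/-! Lower bound -/

theorem flip_EE (N : ℕ) : ∀ u : List Bool, u.length = N + 2 →
    EE N (fun _ => x0) u = Pool.Agent.Results.MP_b99418_al.ExactLength.flipLast u := by
  induction N with
  | zero =>
    intro u hu
    match u, hu with
    | [x, y], _ =>
      show x0 [x, y] = _
      cases x <;> cases y <;>
        simp [x0, a_apply, b_apply, aFun, bFun, cFun, dFun,
          Pool.Agent.Results.MP_b99418_al.ExactLength.flipLast]
  | succ N ih =>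
    intro u hu
    match u, hu with
    | x :: y :: u, hu =>
      have h1 := ih (y :: u) (by simpa using hu)
      cases x
      · show false :: EE N (fun _ => x0) (y :: u) = _
        rw [h1]
        rfl
      · show true :: EE N (fun _ => x0) (y :: u) = _
        rw [h1]
        rfl

theorem shallow_EE (N : ℕ) : IsShallow (N + 2) (EE N fun _ => x0) := by
  induction N with
  | zero =>
    have sa : IsShallow 0 a := sh_zero.2 ⟨rfl, by simp⟩
    have sd : IsShallow 0 d := sh_zero.2 ⟨rfl, by simp⟩
    have h1 : c * a = node a d * pa true := by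
      simp only [pa, if_true]
      rw [← c_eq]
    have h2 : a * c = node d a * pa true := by
      simp only [pa, if_true]
      rw [← a_node, ← c_eq, mul_assoc, aa, mul_one]
    have h3 : x0 = node (c * a) (a * c) * pa false := by
      simp only [pa, Bool.false_eq_true, if_false, mul_one]
      exact x0_node
    exact (sh_succ h3).2 ⟨(sh_succ h1).2 ⟨sa, sd⟩, (sh_succ h2).2 ⟨sd, sa⟩⟩
  | succ N ih =>
    have h : EE (N + 1) (fun _ => x0) = node (EE N fun _ => x0) (EE N fun _ => x0) * pa false := by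
      simp only [pa, Bool.false_eq_true, if_false, mul_one]
      rfl
    exact (sh_succ h).2 ⟨ih, ih⟩

theorem low (N : ℕ) : ∃ g : G, depth g ≤ N + 2 ∧
    Pool.Agent.Results.MP_b99418_al.ExactLength.L (N + 2) ≤ len g ∧ g ≠ 1 := by
  obtain ⟨S, _, hS⟩ := special_exact GG.x0
  have hmem : (EE N fun _ => x0) ∈ G := (hS N).mem
  have hlen : Pool.Agent.Results.MP_b99418_al.ExactLength.L (N + 2) ≤ len (⟨_, hmem⟩ : G) := by
    obtain ⟨w, hw1, hw2⟩ := exists_geod ⟨_, hmem⟩
    rw [← hw1]
    have hrep : Pool.Agent.Results.MP_b99418_al.ExactLength.Rep (N + 2)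
        (w.map Pool.Agent.H776R2.Diam.I_gen) := by
      intro u hu
      rw [Pool.Agent.H776R2.Diam.I_ev, List.map_map]
      have : w.map (Pool.Agent.H776R2.Diam.I_lt ∘ Pool.Agent.H776R2.Diam.I_gen) = w := by
        conv_rhs => rw [← List.map_id w]
        exact List.map_congr_left fun x _ => Pool.Agent.H776R2.Diam.I_lt_gen x
      rw [this]
      have h2 : ev w = EE N fun _ => x0 := congrArg Subtype.val hw2
      rw [h2]
      exact flip_EE N u hu
    have := Pool.Agent.Results.MP_b99418_al.ExactLength.length_ge (by omega) hrep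
    simpa using this
  refine ⟨⟨_, hmem⟩, depth_le (shallow_EE N), hlen, ?_⟩
  intro h
  have h1 : (EE N fun _ => x0) = 1 := congrArg Subtype.val h
  have h2 := flip_EE N (List.replicate (N + 1) false ++ [false]) (by simp)
  rw [h1, Equiv.Perm.one_apply] at h2
  have h3 : ∀ (n : ℕ), Pool.Agent.Results.MP_b99418_al.ExactLength.flipLast
      (List.replicate n false ++ [false]) = List.replicate n false ++ [true] := by
    intro n
    induction n with
    | zero => rfl
    | succ n ih =>
      rcases n with _ | n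
      · rfl
      · show false :: Pool.Agent.Results.MP_b99418_al.ExactLength.flipLast
          (List.replicate (n + 1) false ++ [false]) = _
        rw [ih]
        rfl
  rw [h3] at h2
  simp at h2

end Pool.Agent.R505.Depth
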